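import Mathlib

namespace Pool.Agent.PonceletEuler

/-- Tangency identity for a chord of the unit circle. -/
theorem tan_id (x1 y1 x2 y2 x3 y3 m1 m2 l1 l2 s t H d1 d2 : ℝ)
    (h1 : y1 ^ 2 + x1 ^ 2 = 1) (h2 : y2 ^ 2 + x2 ^ 2 = 1) (h3 : y3 ^ 2 + x3 ^ 2 = 1)
    (hl1 : l1 = (x1 * x2 - y1 * y2) * x3 - (x1 * y2 + y1 * x2) * y3)
    (hl2 : l2 = (x1 * x2 - y1 * y2) * y3 + (x1 * y2 + y1 * x2) * x3)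
    (hs : s = x1 + x2 + x3 - (l1 * m1 + l2 * m2))
    (ht : t = y1 + y2 + y3 - (l2 * m1 - l1 * m2))
    (hH : H = (1 + m1 ^ 2 + m2 ^ 2) / 2 - (s ^ 2 + t ^ 2) / 4)
    (hd1 : d1 = (s ^ 2 - t ^ 2) / 4 - m1) (hd2 : d2 = s * t / 2 - m2) :
    (H - d1) * (x2 - x1) ^ 2 - 2 * d2 * (x2 - x1) * (y2 - y1) + (H + d1) * (y2 - y1) ^ 2
      = 2 * ((x1 - s / 2) * (y2 - y1) - (y1 - t / 2) * (x2 - x1)) ^ 2 := by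
  subst hH hd1 hd2
  subst hs ht
  subst hl1 hl2
  linear_combination
    ((-1/2)*y1^2*y2^2*y3^2*m1^2 + (-1/2)*y1^2*y2^2*y3^2*m2^2 + (-1/2)*y1^2*y2^2*x3^2*m1^2 +
      (-1/2)*y1^2*y2^2*x3^2*m2^2 + (-1)*y1^2*y2*y3*m1 + y1^2*y2*x3*m2 +
      (-1/2)*y1^2*y3^2*x2^2*m1^2 + (-1/2)*y1^2*y3^2*x2^2*m2^2 + y1^2*y3*x2*m2 +
      (-1/2)*y1^2*x2^2*x3^2*m1^2 + (-1/2)*y1^2*x2^2*x3^2*m2^2 + y1^2*x2*x3*m1 + (-1/2)*y1^2 +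
      y1*y2^3*y3^2*m1^2 + y1*y2^3*y3^2*m2^2 + y1*y2^3*x3^2*m1^2 + y1*y2^3*x3^2*m2^2 +
      y1*y2^2*y3*m1 + (-1)*y1*y2^2*x3*m2 + y1*y2*y3^2*x2^2*m1^2 + y1*y2*y3^2*x2^2*m2^2 +
      (-1)*y1*y2*y3^2*m1 + y1*y2*x2^2*x3^2*m1^2 + y1*y2*x2^2*x3^2*m2^2 + (-1)*y1*y2*x3^2*m1 +
      y1*y3^2*x2*m2 + y1*y3*x2^2*m1 + (-1)*y1*y3 + (-1)*y1*x2^2*x3*m2 + y1*x2*x3^2*m2 +
      (-1/2)*y2^4*y3^2*m1^2 + (-1/2)*y2^4*y3^2*m2^2 + (-1/2)*y2^4*x3^2*m1^2 +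
      (-1/2)*y2^4*x3^2*m2^2 + y2^3*y3*m1 + (-1)*y2^3*x3*m2 + (-1/2)*y2^2*y3^2*x1^2*m1^2 +
      (-1/2)*y2^2*y3^2*x1^2*m2^2 + y2^2*y3^2*x1*x2*m1^2 + y2^2*y3^2*x1*x2*m2^2 +
      (-1)*y2^2*y3^2*x2^2*m1^2 + (-1)*y2^2*y3^2*x2^2*m2^2 + (-1/2)*y2^2*y3^2*m1^2 +
      2*y2^2*y3^2*m1 + (-1/2)*y2^2*y3^2*m2^2 + (-1)*y2^2*y3*x1*m2 + (-1)*y2^2*y3*x2*m2 +
      (-1/2)*y2^2*x1^2*x3^2*m1^2 + (-1/2)*y2^2*x1^2*x3^2*m2^2 + y2^2*x1*x2*x3^2*m1^2 +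
      y2^2*x1*x2*x3^2*m2^2 + (-1)*y2^2*x1*x3*m1 + (-1)*y2^2*x2^2*x3^2*m1^2 +
      (-1)*y2^2*x2^2*x3^2*m2^2 + (-1)*y2^2*x2*x3*m1 + (-1/2)*y2^2*x3^2*m1^2 + 2*y2^2*x3^2*m1 +
      (-1/2)*y2^2*x3^2*m2^2 + y2^2 + y2*y3^2*x1*m2 + (-2)*y2*y3^2*x2*m2 + (-1)*y2*y3*x1^2*m1 +
      y2*y3*x2^2*m1 + (-1)*y2*y3*m1 + y2*y3 + y2*x1^2*x3*m2 + y2*x1*x3^2*m2 + (-1)*y2*x2^2*x3*m2
      + (-2)*y2*x2*x3^2*m2 + y2*x3*m2 + (-1/2)*y3^2*x1^2*x2^2*m1^2 + (-1/2)*y3^2*x1^2*x2^2*m2^2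
      + y3^2*x1*x2^3*m1^2 + y3^2*x1*x2^3*m2^2 + y3^2*x1*x2*m1 + (-1/2)*y3^2*x2^4*m1^2 +
      (-1/2)*y3^2*x2^4*m2^2 + (-1/2)*y3^2*x2^2*m1^2 + (-1/2)*y3^2*x2^2*m2^2 + (-1/2)*y3^2 +
      y3*x1^2*x2*m2 + (-1)*y3*x1*x2^2*m2 + (-1)*y3*x2^3*m2 + y3*x2*m2 +
      (-1/2)*x1^2*x2^2*x3^2*m1^2 + (-1/2)*x1^2*x2^2*x3^2*m2^2 + x1^2*x2*x3*m1 + (-1/2)*x1^2 +
      x1*x2^3*x3^2*m1^2 + x1*x2^3*x3^2*m2^2 + (-1)*x1*x2^2*x3*m1 + x1*x2*x3^2*m1 + (-1)*x1*x3 +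
      (-1/2)*x2^4*x3^2*m1^2 + (-1/2)*x2^4*x3^2*m2^2 + (-1)*x2^3*x3*m1 + (-1/2)*x2^2*x3^2*m1^2 +
      (-1/2)*x2^2*x3^2*m2^2 + x2^2 + x2*x3*m1 + x2*x3 + (-1/2)*x3^2 + (1/2)*m1^2 + (-1)*m1 +
      (1/2)*m2^2) * h1 +
    ((-1)*y1*y2^2*y3*m1 + y1*y2^2*x3*m2 + y1*y2*y3^2*m1^2 + (-1)*y1*y2*y3^2*m1 + y1*y2*y3^2*m2^2
      + y1*y2*x3^2*m1^2 + (-1)*y1*y2*x3^2*m1 + y1*y2*x3^2*m2^2 + (-2)*y1*y3^2*x1*m2 +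
      y1*y3^2*x2*m2 + (-1)*y1*y3*x2^2*m1 + y1*y3 + (-2)*y1*x1*x3^2*m2 + y1*x2^2*x3*m2 +
      y1*x2*x3^2*m2 + (-1/2)*y2^2*y3^2*m1^2 + (-1/2)*y2^2*y3^2*m2^2 + y2^2*y3*x1*m2 +
      y2^2*x1*x3*m1 + (-1/2)*y2^2*x3^2*m1^2 + (-1/2)*y2^2*x3^2*m2^2 + (-1/2)*y2^2 +
      y2*y3^2*x1*m2 + y2*y3*m1 + (-1)*y2*y3 + y2*x1*x3^2*m2 + (-1)*y2*x3*m2 + (-2)*y3^2*x1^2*m1
      + y3^2*x1*x2*m1^2 + y3^2*x1*x2*m1 + y3^2*x1*x2*m2^2 + (-1/2)*y3^2*x2^2*m1^2 +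
      (-1/2)*y3^2*x2^2*m2^2 + (-1)*y3^2*m1^2 + 2*y3^2*m1 + (-1)*y3^2*m2^2 + (-1/2)*y3^2 +
      y3*x1*x2^2*m2 + (-1)*y3*x2*m2 + (-2)*x1^2*x3^2*m1 + x1*x2^2*x3*m1 + x1*x2*x3^2*m1^2 +
      x1*x2*x3^2*m1 + x1*x2*x3^2*m2^2 + x1*x3 + (-1/2)*x2^2*x3^2*m1^2 + (-1/2)*x2^2*x3^2*m2^2 +
      (-1/2)*x2^2 + (-1)*x2*x3*m1 + (-1)*x2*x3 + (-1)*x3^2*m1^2 + 2*x3^2*m1 + (-1)*x3^2*m2^2 +
      (-1/2)*x3^2 + (1/2)*m1^2 + (-1)*m1 + (1/2)*m2^2 + 1) * h2 +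
    (y1*y2*m1^2 + (-2)*y1*y2*m1 + y1*y2*m2^2 + y1*y2 + (-2)*y1*x1*m2 + 2*y1*x2*m2 + 2*y2*x1*m2 +
      (-2)*y2*x2*m2 + (-2)*x1^2*m1 + x1*x2*m1^2 + 2*x1*x2*m1 + x1*x2*m2^2 + x1*x2 + (-2)*x2^2*m1
      + (-1)*m1^2 + 2*m1 + (-1)*m2^2 + (-1)) * h3

/-- A midpoint of a side lies on the explicit Euler circle. -/
theorem euler_id (x1 y1 x2 y2 x3 y3 l1 l2 a b n1 n2 : ℝ)
    (h1 : y1 ^ 2 + x1 ^ 2 = 1) (h2 : y2 ^ 2 + x2 ^ 2 = 1) (h3 : y3 ^ 2 + x3 ^ 2 = 1)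
    (hl1 : l1 = (x1 * x2 - y1 * y2) * x3 - (x1 * y2 + y1 * x2) * y3)
    (hl2 : l2 = (x1 * x2 - y1 * y2) * y3 + (x1 * y2 + y1 * x2) * x3)
    (hn1 : a * n1 = (a ^ 2 * (x1 + x2 + x3) - (a ^ 2 - b ^ 2) * (x1 + x2 + x3 + l1) / 4) / 2)
    (hn2 : b * n2 = (b ^ 2 * (y1 + y2 + y3) + (a ^ 2 - b ^ 2) * (y1 + y2 + y3 - l2) / 4) / 2) :
    (a * (x1 + x2) / 2) ^ 2 + (b * (y1 + y2) / 2) ^ 2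
      - 2 * (a * (x1 + x2) / 2 * n1 + b * (y1 + y2) / 2 * n2)
      + (a ^ 2 + b ^ 2) * ((x1 + x2 + x3) ^ 2 + (y1 + y2 + y3) ^ 2 - 1) / 8 = 0 := by
  subst hl1 hl2
  linear_combination (-(x1 + x2)) * hn1 - (y1 + y2) * hn2
    + (a ^ 2 - b ^ 2) * (x2 * x3 - y2 * y3) / 8 * h1
    + (a ^ 2 - b ^ 2) * (x1 * x3 - y1 * y3) / 8 * h2 + (a ^ 2 + b ^ 2) / 8 * h3

/-- Three points of the unit circle with given sum and product. -/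
theorem exists_three (σ l : ℂ) (hσ : ‖σ‖ < 1) (hl : ‖l‖ = 1) :
    ∃ z1 z2 z3 : ℂ, ‖z1‖ = 1 ∧ ‖z2‖ = 1 ∧ ‖z3‖ = 1 ∧ z1 + z2 + z3 = σ ∧ z1 * z2 * z3 = l := by
  let Q : Cubic ℂ := ⟨1, -σ, l * (starRingEnd ℂ) σ, -l⟩
  have ha : Q.a ≠ 0 := one_ne_zero
  obtain ⟨x, y, z, h3⟩ := (Cubic.splits_iff_roots_eq_three (φ := RingHom.id ℂ) ha).1
    (IsAlgClosed.splits _)
  have hb := Cubic.b_eq_three_roots ha h3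
  have hc := Cubic.c_eq_three_roots ha h3
  have hd := Cubic.d_eq_three_roots ha h3
  simp only [Q, RingHom.id_apply, one_mul] at hb hc hd
  have key : ∀ w : ℂ, w ^ 2 * (w - σ) = l * (1 - (starRingEnd ℂ) σ * w) → ‖w‖ = 1 := by
    intro w hw
    have hn : ‖w‖ ^ 2 * ‖w - σ‖ = ‖1 - (starRingEnd ℂ) σ * w‖ := by
      have := congrArg norm hw
      rwa [norm_mul, norm_mul, norm_pow, hl, one_mul] at this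
    have hid : ‖w - σ‖ ^ 2 - ‖1 - (starRingEnd ℂ) σ * w‖ ^ 2 = (‖w‖ ^ 2 - 1) * (1 - ‖σ‖ ^ 2) := by
      simp only [Complex.sq_norm, Complex.normSq_apply, Complex.sub_re, Complex.sub_im,
        Complex.mul_re, Complex.mul_im, Complex.conj_re, Complex.conj_im, Complex.one_re,
        Complex.one_im]
      ring
    have hs : 0 < 1 - ‖σ‖ ^ 2 := by nlinarith [norm_nonneg σ]
    rw [← hn] at hid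
    have hw0 := norm_nonneg w
    have hfac : (‖w‖ ^ 2 - 1) * ((1 - ‖σ‖ ^ 2) + ‖w - σ‖ ^ 2 * (‖w‖ ^ 2 + 1)) = 0 := by
      linear_combination -hid
    have hpos : 0 < (1 - ‖σ‖ ^ 2) + ‖w - σ‖ ^ 2 * (‖w‖ ^ 2 + 1) := by positivity
    have h1 : ‖w‖ ^ 2 - 1 = 0 := (mul_eq_zero.1 hfac).resolve_right hpos.ne'
    nlinarith
  refine ⟨x, y, z, key x ?_, key y ?_, key z ?_, by linear_combination hb, by linear_combination hd⟩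
  · linear_combination x ^ 2 * hb + x * hc + hd
  · linear_combination y ^ 2 * hb + y * hc + hd
  · linear_combination z ^ 2 * hb + z * hc + hd

/-- Real form: three points of the unit circle, with nonzero determinant. -/
theorem exists_three_real (p q l1 l2 : ℝ) (hσ : p ^ 2 + q ^ 2 < 1) (hl : l1 ^ 2 + l2 ^ 2 = 1) :
    ∃ x1 y1 x2 y2 x3 y3 : ℝ, y1 ^ 2 + x1 ^ 2 = 1 ∧ y2 ^ 2 + x2 ^ 2 = 1 ∧ y3 ^ 2 + x3 ^ 2 = 1 ∧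
      x1 + x2 + x3 = p ∧ y1 + y2 + y3 = q ∧
      l1 = (x1 * x2 - y1 * y2) * x3 - (x1 * y2 + y1 * x2) * y3 ∧
      l2 = (x1 * x2 - y1 * y2) * y3 + (x1 * y2 + y1 * x2) * x3 := by
  have hn : ∀ z : ℂ, ‖z‖ ^ 2 = z.re ^ 2 + z.im ^ 2 := by
    intro z; rw [Complex.sq_norm, Complex.normSq_apply]; ring
  obtain ⟨z1, z2, z3, h1, h2, h3, hs, hp⟩ := exists_three ⟨p, q⟩ ⟨l1, l2⟩
    (by have := hn ⟨p, q⟩; nlinarith [norm_nonneg (⟨p, q⟩ : ℂ)])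
    (by have := hn ⟨l1, l2⟩; nlinarith [norm_nonneg (⟨l1, l2⟩ : ℂ)])
  refine ⟨z1.re, z1.im, z2.re, z2.im, z3.re, z3.im, ?_, ?_, ?_, ?_, ?_, ?_, ?_⟩
  · have := hn z1; rw [h1] at this; linarith
  · have := hn z2; rw [h2] at this; linarith
  · have := hn z3; rw [h3] at this; linarith
  · simpa using congrArg Complex.re hs
  · simpa using congrArg Complex.im hs
  · have := congrArg Complex.re hp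
    simp only [Complex.mul_re, Complex.mul_im] at this
    exact this.symm
  · have := congrArg Complex.im hp
    simp only [Complex.mul_re, Complex.mul_im] at this
    exact this.symm

/-- Points of the unit circle whose sum has modulus below one are distinct. -/
theorem chord_pos (x1 y1 x2 y2 x3 y3 : ℝ)
    (h1 : y1 ^ 2 + x1 ^ 2 = 1) (h3 : y3 ^ 2 + x3 ^ 2 = 1)
    (hσ : (x1 + x2 + x3) ^ 2 + (y1 + y2 + y3) ^ 2 < 1) :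
    0 < (x2 - x1) ^ 2 + (y2 - y1) ^ 2 := by
  by_contra h
  have hx : x2 = x1 := by nlinarith [sq_nonneg (x2 - x1), sq_nonneg (y2 - y1)]
  have hy : y2 = y1 := by nlinarith [sq_nonneg (x2 - x1), sq_nonneg (y2 - y1)]
  subst hx hy
  nlinarith [sq_nonneg (x2 + x3), sq_nonneg (y2 + y3)]

/-- Three distinct points of the unit circle are not collinear. -/
theorem det_ne (x1 y1 x2 y2 x3 y3 : ℝ)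
    (h1 : y1 ^ 2 + x1 ^ 2 = 1) (h2 : y2 ^ 2 + x2 ^ 2 = 1) (h3 : y3 ^ 2 + x3 ^ 2 = 1)
    (h12 : 0 < (x2 - x1) ^ 2 + (y2 - y1) ^ 2) (h13 : 0 < (x3 - x1) ^ 2 + (y3 - y1) ^ 2)
    (h23 : 0 < (x3 - x2) ^ 2 + (y3 - y2) ^ 2) :
    (x2 - x1) * (y3 - y1) - (x3 - x1) * (y2 - y1) ≠ 0 := by
  intro h
  have e : 4 * ((x2 - x1) * (y3 - y1) - (x3 - x1) * (y2 - y1)) ^ 2
      = ((x2 - x1) ^ 2 + (y2 - y1) ^ 2) * ((x3 - x1) ^ 2 + (y3 - y1) ^ 2)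
        * ((x3 - x2) ^ 2 + (y3 - y2) ^ 2) := by
    linear_combination
      ((-1)*y1^2*y2^2 + 2*y1^2*y2*y3 + (-1)*y1^2*y3^2 + (-1)*y1^2*x2^2 + 2*y1^2*x2*x3 +
        (-1)*y1^2*x3^2 + 2*y1*y2^3 + (-2)*y1*y2^2*y3 + (-2)*y1*y2*y3^2 + 2*y1*y2*x2^2 +
        (-4)*y1*y2*x2*x3 + 2*y1*y2*x3^2 + 2*y1*y3^3 + 2*y1*y3*x2^2 + (-4)*y1*y3*x2*x3 +
        2*y1*y3*x3^2 + (-1)*y2^4 + (-2)*y2^3*y3 + 6*y2^2*y3^2 + (-1)*y2^2*x1^2 + 2*y2^2*x1*x2 +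
        2*y2^2*x1*x3 + (-2)*y2^2*x2^2 + 2*y2^2*x2*x3 + (-2)*y2^2*x3^2 + (-1)*y2^2 + (-2)*y2*y3^3
        + 2*y2*y3*x1^2 + (-4)*y2*y3*x1*x2 + (-4)*y2*y3*x1*x3 + (-2)*y2*y3*x2^2 + 8*y2*y3*x2*x3 +
        (-2)*y2*y3*x3^2 + 2*y2*y3 + (-1)*y3^4 + (-1)*y3^2*x1^2 + 2*y3^2*x1*x2 + 2*y3^2*x1*x3 +
        (-2)*y3^2*x2^2 + 2*y3^2*x2*x3 + (-2)*y3^2*x3^2 + (-1)*y3^2 + (-1)*x1^2*x2^2 +
        2*x1^2*x2*x3 + (-1)*x1^2*x3^2 + 2*x1*x2^3 + (-2)*x1*x2^2*x3 + (-2)*x1*x2*x3^2 +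
        2*x1*x3^3 + (-1)*x2^4 + 2*x2^3*x3 + (-2)*x2^2*x3^2 + 3*x2^2 + 2*x2*x3^3 + (-6)*x2*x3 +
        (-1)*x3^4 + 3*x3^2) * h1 +
      (2*y1*y2^2*y3 + (-2)*y1*y2*y3^2 + (-4)*y1*y2*x1*x3 + 2*y1*y2*x3^2 + 2*y1*y2 + (-2)*y1*y3^3
        + (-4)*y1*y3*x1*x2 + 8*y1*y3*x1*x3 + 2*y1*y3*x2^2 + (-4)*y1*y3*x2*x3 + (-2)*y1*y3*x3^2 +
        (-1)*y2^2*y3^2 + 2*y2^2*x1*x3 + (-1)*y2^2*x3^2 + (-1)*y2^2 + 2*y2*y3^3 + 4*y2*y3*x1^2 +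
        (-4)*y2*y3*x1*x3 + 2*y2*y3*x3^2 + (-2)*y2*y3 + (-1)*y3^4 + (-8)*y3^2*x1^2 + 2*y3^2*x1*x2
        + 2*y3^2*x1*x3 + (-1)*y3^2*x2^2 + 2*y3^2*x2*x3 + (-2)*y3^2*x3^2 + 5*y3^2 +
        (-4)*x1^2*x2*x3 + 4*x1^2 + 2*x1*x2^2*x3 + (-2)*x1*x2*x3^2 + 2*x1*x2 + 2*x1*x3^3 +
        (-4)*x1*x3 + (-1)*x2^2*x3^2 + (-1)*x2^2 + 2*x2*x3^3 + 2*x2*x3 + (-1)*x3^4 + x3^2 + (-2))
        * h2 +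
      (2*y1*y2*y3^2 + 8*y1*y2*x1*x2 + (-4)*y1*y2*x1*x3 + (-4)*y1*y2*x2*x3 + 2*y1*y2*x3^2 +
        (-2)*y1*y2 + (-4)*y1*y3*x1*x2 + 4*y1*y3*x2^2 + 4*y2*y3*x1^2 + (-4)*y2*y3*x1*x2 +
        2*y3^2*x1*x2 + (-2)*y3^2 + 8*x1^2*x2^2 + (-4)*x1^2*x2*x3 + (-4)*x1^2 + (-4)*x1*x2^2*x3 +
        2*x1*x2*x3^2 + (-2)*x1*x2 + 4*x1*x3 + (-4)*x2^2 + 4*x2*x3 + (-2)*x3^2 + 2) * h3
  rw [h] at e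
  have := mul_pos (mul_pos h12 h13) h23
  linarith

/-- The inner conic lies in the disc of radius its major semi-axis. -/
theorem form_bound (H d1 d2 D ξ η : ℝ) (hD : 0 ≤ D) (hD2 : D ^ 2 = d1 ^ 2 + d2 ^ 2) (hH : D < H)
    (h : (H - d1) * ξ ^ 2 - 2 * d2 * ξ * η + (H + d1) * η ^ 2 ≤ (H ^ 2 - d1 ^ 2 - d2 ^ 2) / 2) :
    ξ ^ 2 + η ^ 2 ≤ (H + D) / 2 := by
  have hc : d1 * (ξ ^ 2 - η ^ 2) + d2 * (2 * ξ * η) ≤ D * (ξ ^ 2 + η ^ 2) := by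
    apply le_of_sq_le_sq _ (by positivity)
    rw [mul_pow, hD2]
    nlinarith [sq_nonneg (d1 * (2 * ξ * η) - d2 * (ξ ^ 2 - η ^ 2))]
  by_contra hn
  push Not at hn
  nlinarith [mul_pos (sub_pos.2 hH) (sub_pos.2 hn)]

end Pool.Agent.PonceletEuler
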