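import Pool.Agent.P.MP_d21a88_gt.Alg

namespace Pool.Agent.PonceletEuler

/-- Tangency identity for the tangent line at a double vertex. -/
theorem tan_id2 (x1 y1 x3 y3 m1 m2 l1 l2 s t H d1 d2 : ℝ)
    (h1 : y1 ^ 2 + x1 ^ 2 = 1) (h3 : y3 ^ 2 + x3 ^ 2 = 1)
    (hl1 : l1 = (x1 * x1 - y1 * y1) * x3 - (x1 * y1 + y1 * x1) * y3)
    (hl2 : l2 = (x1 * x1 - y1 * y1) * y3 + (x1 * y1 + y1 * x1) * x3)
    (hs : s = x1 + x1 + x3 - (l1 * m1 + l2 * m2))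
    (ht : t = y1 + y1 + y3 - (l2 * m1 - l1 * m2))
    (hH : H = (1 + m1 ^ 2 + m2 ^ 2) / 2 - (s ^ 2 + t ^ 2) / 4)
    (hd1 : d1 = (s ^ 2 - t ^ 2) / 4 - m1) (hd2 : d2 = s * t / 2 - m2) :
    (H - d1) * (-y1) ^ 2 - 2 * d2 * (-y1) * x1 + (H + d1) * x1 ^ 2
      = 2 * ((x1 - s / 2) * x1 - (y1 - t / 2) * (-y1)) ^ 2 := by
  subst hH hd1 hd2
  subst hs ht
  subst hl1 hl2
  linear_combination
    ((-1/2)*y1^4*y3^2*m1^2 + (-1/2)*y1^4*y3^2*m2^2 + (-1/2)*y1^4*x3^2*m1^2 +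
      (-1/2)*y1^4*x3^2*m2^2 + (-1)*y1^2*y3^2*x1^2*m1^2 + (-1)*y1^2*y3^2*x1^2*m2^2 +
      (-1/2)*y1^2*y3^2*m1^2 + (-1)*y1^2*y3^2*m1 + (-1/2)*y1^2*y3^2*m2^2 +
      (-1)*y1^2*x1^2*x3^2*m1^2 + (-1)*y1^2*x1^2*x3^2*m2^2 + (-1/2)*y1^2*x3^2*m1^2 +
      (-1)*y1^2*x3^2*m1 + (-1/2)*y1^2*x3^2*m2^2 + 2*y1*y3^2*x1*m2 + 2*y1*x1*x3^2*m2 +
      (-1/2)*y3^2*x1^4*m1^2 + (-1/2)*y3^2*x1^4*m2^2 + (-1/2)*y3^2*x1^2*m1^2 + y3^2*x1^2*m1 +
      (-1/2)*y3^2*x1^2*m2^2 + (-1/2)*y3^2*m1^2 + (-1)*y3^2*m1 + (-1/2)*y3^2*m2^2 + (-1/2)*y3^2 +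
      (-1/2)*x1^4*x3^2*m1^2 + (-1/2)*x1^4*x3^2*m2^2 + (-1/2)*x1^2*x3^2*m1^2 + x1^2*x3^2*m1 +
      (-1/2)*x1^2*x3^2*m2^2 + (-1/2)*x3^2*m1^2 + (-1)*x3^2*m1 + (-1/2)*x3^2*m2^2 + (-1/2)*x3^2 +
      (1/2)*m1^2 + m1 + (1/2)*m2^2 + (1/2)) * h1 +
    (2*y1*x1*m2 + 2*x1^2*m1 + (-1/2)*m1^2 + (-1)*m1 + (-1/2)*m2^2 + (-1/2)) * h3

/-- A binary quadratic form vanishing on the three sides of a triangle is zero. -/
theorem form_zero (α β γ ux uy wx wy : ℝ) (hdet : ux * wy - wx * uy ≠ 0)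
    (hu : α * ux ^ 2 - 2 * β * ux * uy + γ * uy ^ 2 = 0)
    (hw : α * wx ^ 2 - 2 * β * wx * wy + γ * wy ^ 2 = 0)
    (hv : α * (wx - ux) ^ 2 - 2 * β * (wx - ux) * (wy - uy) + γ * (wy - uy) ^ 2 = 0) :
    α = 0 ∧ β = 0 ∧ γ = 0 := by
  have hb : α * ux * wx - β * (ux * wy + uy * wx) + γ * uy * wy = 0 := by
    linear_combination (hu + hw - hv) / 2
  have h2 := pow_ne_zero 2 hdet
  refine ⟨mul_left_cancel₀ h2 ?_, mul_left_cancel₀ h2 ?_, mul_left_cancel₀ h2 ?_⟩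
  · linear_combination wy ^ 2 * hu - 2 * uy * wy * hb + uy ^ 2 * hw
  · linear_combination wx * wy * hu - (ux * wy + uy * wx) * hb + ux * uy * hw
  · linear_combination wx ^ 2 * hu - 2 * ux * wx * hb + ux ^ 2 * hw

/-- Three points of the unit circle for a Blaschke product of degree three. -/
theorem exists_three' (f g l : ℂ) (hf : ‖f‖ < 1) (hg : ‖g‖ < 1) (hl : ‖l‖ = 1) :
    ∃ z1 z2 z3 : ℂ, ‖z1‖ = 1 ∧ ‖z2‖ = 1 ∧ ‖z3‖ = 1 ∧
      z1 + z2 + z3 = f + g + l * (starRingEnd ℂ) (f * g) ∧ z1 * z2 * z3 = l := by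
  let Q : Cubic ℂ := ⟨1, -(f + g + l * (starRingEnd ℂ) (f * g)),
    f * g + l * (starRingEnd ℂ) (f + g), -l⟩
  have ha : Q.a ≠ 0 := one_ne_zero
  obtain ⟨x, y, z, h3⟩ := (Cubic.splits_iff_roots_eq_three (φ := RingHom.id ℂ) ha).1
    (IsAlgClosed.splits _)
  have hb := Cubic.b_eq_three_roots ha h3
  have hc := Cubic.c_eq_three_roots ha h3
  have hd := Cubic.d_eq_three_roots ha h3
  simp only [Q, RingHom.id_apply, one_mul, map_mul, map_add] at hb hc hd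
  have hid : ∀ w σ : ℂ, ‖w - σ‖ ^ 2 - ‖1 - (starRingEnd ℂ) σ * w‖ ^ 2
      = (‖w‖ ^ 2 - 1) * (1 - ‖σ‖ ^ 2) := by
    intro w σ
    simp only [Complex.sq_norm, Complex.normSq_apply, Complex.sub_re, Complex.sub_im,
      Complex.mul_re, Complex.mul_im, Complex.conj_re, Complex.conj_im, Complex.one_re,
      Complex.one_im]
    ring
  have key : ∀ w : ℂ, w * (w - f) * (w - g)
      = l * (1 - (starRingEnd ℂ) f * w) * (1 - (starRingEnd ℂ) g * w) → ‖w‖ = 1 := by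
    intro w hw
    have hn : ‖w‖ ^ 2 * ‖w - f‖ ^ 2 * ‖w - g‖ ^ 2
        = ‖1 - (starRingEnd ℂ) f * w‖ ^ 2 * ‖1 - (starRingEnd ℂ) g * w‖ ^ 2 := by
      have := congrArg norm hw
      rw [norm_mul, norm_mul, norm_mul, norm_mul, hl, one_mul] at this
      rw [← mul_pow, ← mul_pow, ← mul_pow, this]
    have h1 := hid w f
    have h2 := hid w g
    have hs : 0 < 1 - ‖f‖ ^ 2 := by nlinarith [norm_nonneg f]
    have ht : 0 < 1 - ‖g‖ ^ 2 := by nlinarith [norm_nonneg g]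
    have hw0 := norm_nonneg w
    have hfac : (‖w‖ ^ 2 - 1) * (‖w - f‖ ^ 2 * ‖w - g‖ ^ 2
        + (1 - ‖f‖ ^ 2) * ‖w - g‖ ^ 2 + (1 - ‖g‖ ^ 2) * ‖1 - (starRingEnd ℂ) f * w‖ ^ 2) = 0 := by
      linear_combination hn - ‖w - g‖ ^ 2 * h1 - ‖1 - (starRingEnd ℂ) f * w‖ ^ 2 * h2
    rcases mul_eq_zero.1 hfac with h | h
    · nlinarith
    · exfalso
      have a1 : 0 ≤ ‖w - f‖ ^ 2 * ‖w - g‖ ^ 2 := by positivity
      have a2 : 0 ≤ (1 - ‖f‖ ^ 2) * ‖w - g‖ ^ 2 := by positivity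
      have a3 : 0 ≤ (1 - ‖g‖ ^ 2) * ‖1 - (starRingEnd ℂ) f * w‖ ^ 2 := by positivity
      have b2 : ‖w - g‖ ^ 2 = 0 :=
        (mul_eq_zero.1 (by linarith : (1 - ‖f‖ ^ 2) * ‖w - g‖ ^ 2 = 0)).resolve_left hs.ne'
      have b3 : ‖1 - (starRingEnd ℂ) f * w‖ ^ 2 = 0 :=
        (mul_eq_zero.1 (by linarith :
          (1 - ‖g‖ ^ 2) * ‖1 - (starRingEnd ℂ) f * w‖ ^ 2 = 0)).resolve_left ht.ne'
      have c1 : w = g := sub_eq_zero.1 (norm_eq_zero.1 (pow_eq_zero_iff two_ne_zero |>.1 b2))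
      rw [b3, c1] at h1
      nlinarith [mul_pos hs ht, sq_nonneg ‖g - f‖]
  refine ⟨x, y, z, key x ?_, key y ?_, key z ?_, ?_, by linear_combination hd⟩
  · linear_combination x ^ 2 * hb + x * hc + hd
  · linear_combination y ^ 2 * hb + y * hc + hd
  · linear_combination z ^ 2 * hb + z * hc + hd
  · rw [map_mul]
    linear_combination hb

/-- Real form of the previous statement. -/
theorem exists_three_real' (s t e1 e2 m1 m2 l1 l2 : ℝ)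
    (hf : (s / 2 + e1) ^ 2 + (t / 2 + e2) ^ 2 < 1) (hg : (s / 2 - e1) ^ 2 + (t / 2 - e2) ^ 2 < 1)
    (hm1 : m1 = (s ^ 2 - t ^ 2) / 4 - (e1 ^ 2 - e2 ^ 2)) (hm2 : m2 = s * t / 2 - 2 * e1 * e2)
    (hl : l1 ^ 2 + l2 ^ 2 = 1) :
    ∃ x1 y1 x2 y2 x3 y3 : ℝ, y1 ^ 2 + x1 ^ 2 = 1 ∧ y2 ^ 2 + x2 ^ 2 = 1 ∧ y3 ^ 2 + x3 ^ 2 = 1 ∧
      x1 + x2 + x3 = s + (l1 * m1 + l2 * m2) ∧ y1 + y2 + y3 = t + (l2 * m1 - l1 * m2) ∧
      l1 = (x1 * x2 - y1 * y2) * x3 - (x1 * y2 + y1 * x2) * y3 ∧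
      l2 = (x1 * x2 - y1 * y2) * y3 + (x1 * y2 + y1 * x2) * x3 := by
  have hn : ∀ z : ℂ, ‖z‖ ^ 2 = z.re ^ 2 + z.im ^ 2 := by
    intro z; rw [Complex.sq_norm, Complex.normSq_apply]; ring
  obtain ⟨z1, z2, z3, h1, h2, h3, hs, hp⟩ :=
    exists_three' ⟨s / 2 + e1, t / 2 + e2⟩ ⟨s / 2 - e1, t / 2 - e2⟩ ⟨l1, l2⟩
    (by have := hn ⟨s / 2 + e1, t / 2 + e2⟩
        nlinarith [norm_nonneg (⟨s / 2 + e1, t / 2 + e2⟩ : ℂ)])
    (by have := hn ⟨s / 2 - e1, t / 2 - e2⟩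
        nlinarith [norm_nonneg (⟨s / 2 - e1, t / 2 - e2⟩ : ℂ)])
    (by have := hn ⟨l1, l2⟩; nlinarith [norm_nonneg (⟨l1, l2⟩ : ℂ)])
  refine ⟨z1.re, z1.im, z2.re, z2.im, z3.re, z3.im, ?_, ?_, ?_, ?_, ?_, ?_, ?_⟩
  · have := hn z1; rw [h1] at this; linarith
  · have := hn z2; rw [h2] at this; linarith
  · have := hn z3; rw [h3] at this; linarith
  · have := congrArg Complex.re hs
    simp only [Complex.add_re, Complex.mul_re, Complex.mul_im, Complex.conj_re,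
      Complex.conj_im] at this
    rw [this, hm1, hm2]
    ring
  · have := congrArg Complex.im hs
    simp only [Complex.add_im, Complex.mul_re, Complex.mul_im, Complex.conj_re,
      Complex.conj_im] at this
    rw [this, hm1, hm2]
    ring
  · have := congrArg Complex.re hp
    simp only [Complex.mul_re, Complex.mul_im] at this
    exact this.symm
  · have := congrArg Complex.im hp
    simp only [Complex.mul_re, Complex.mul_im] at this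
    exact this.symm

/-- A complex square root in real form. -/
theorem exists_sqrt (d1 d2 : ℝ) : ∃ e1 e2 : ℝ, e1 ^ 2 - e2 ^ 2 = d1 ∧ 2 * e1 * e2 = d2 := by
  obtain ⟨z, hz⟩ := IsAlgClosed.exists_pow_nat_eq (⟨d1, d2⟩ : ℂ) two_pos
  refine ⟨z.re, z.im, ?_, ?_⟩
  · have := congrArg Complex.re hz
    simp only [pow_two, Complex.mul_re] at this
    linarith
  · have := congrArg Complex.im hz
    simp only [pow_two, Complex.mul_im] at this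
    linarith

/-- Solvability of the linear system for the invariant point. -/
theorem solve_iff (U V W c s t m1 m2 : ℝ) (hU : 0 < U) (hc : 0 < c)
    (hW : U - V = 2 * W) :
    (∃ X Y : ℝ, (U * m1 - W) * X - V * m2 * Y = c * (s * m1 - t * m2) ∧
      U * m2 * X + (V * m1 - W) * Y = c * (s * m2 + t * m1)) ↔
    (U * V * (m1 ^ 2 + m2 ^ 2) - W * (U + V) * m1 + W ^ 2 ≠ 0 ∨
      (V * (m1 ^ 2 + m2 ^ 2) * s = W * (s * m1 - t * m2) ∧
        U * (m1 ^ 2 + m2 ^ 2) * t = W * (s * m2 + t * m1))) := by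
  by_cases hΔ : U * V * (m1 ^ 2 + m2 ^ 2) - W * (U + V) * m1 + W ^ 2 = 0
  · simp only [hΔ, ne_eq, not_true_eq_false, false_or]
    constructor
    · rintro ⟨X, Y, h1, h2⟩
      constructor
      · apply mul_left_cancel₀ hc.ne'
        linear_combination X * hΔ - (V * m1 - W) * h1 - V * m2 * h2
      · apply mul_left_cancel₀ hc.ne'
        linear_combination Y * hΔ + U * m2 * h1 - (U * m1 - W) * h2
    · rintro ⟨h1, h2⟩
      by_cases ha : (U * m1 - W) ^ 2 + (U * m2) ^ 2 = 0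
      · have a1 : U * m1 - W = 0 := by nlinarith [sq_nonneg (U * m1 - W), sq_nonneg (U * m2)]
        have a2 : U * m2 = 0 := by nlinarith [sq_nonneg (U * m1 - W), sq_nonneg (U * m2)]
        have a3 : m2 = 0 := (mul_eq_zero.1 a2).resolve_left hU.ne'
        subst a3
        by_cases hb : V * m1 - W = 0
        · have a4 : W * m1 = 0 := by linear_combination (a1 - hb) / 2 - m1 / 2 * hW
          have a5 : U * m1 ^ 2 = 0 := by linear_combination m1 * a1 + a4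
          have a6 : m1 = 0 :=
            pow_eq_zero_iff two_ne_zero |>.1 ((mul_eq_zero.1 a5).resolve_left hU.ne')
          subst a6
          exact ⟨0, 0, by ring, by ring⟩
        · refine ⟨0, c * (t * m1) / (V * m1 - W), ?_, by field_simp; ring⟩
          have a4 : (V * m1 - W) * (s * m1) = 0 := by linear_combination h1
          have a5 := (mul_eq_zero.1 a4).resolve_left hb
          linear_combination (-c) * a5
      · obtain ⟨X, hX⟩ : ∃ X, ((U * m1 - W) ^ 2 + (U * m2) ^ 2) * X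
            = c * ((U * m1 - W) * (s * m1 - t * m2) + U * m2 * (s * m2 + t * m1)) :=
          ⟨_, mul_div_cancel₀ _ ha⟩
        refine ⟨X, 0, mul_left_cancel₀ ha ?_, mul_left_cancel₀ ha ?_⟩
        · linear_combination (U * m1 - W) * hX + (c * U * m2) * h2
        · linear_combination U * m2 * hX - (c * (U * m1 - W)) * h2
  · simp only [hΔ, ne_eq, not_false_eq_true, true_or, iff_true]
    obtain ⟨X, hX⟩ : ∃ X, (U * V * (m1 ^ 2 + m2 ^ 2) - W * (U + V) * m1 + W ^ 2) * X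
        = c * (V * (m1 ^ 2 + m2 ^ 2) * s - W * (s * m1 - t * m2)) := ⟨_, mul_div_cancel₀ _ hΔ⟩
    obtain ⟨Y, hY⟩ : ∃ Y, (U * V * (m1 ^ 2 + m2 ^ 2) - W * (U + V) * m1 + W ^ 2) * Y
        = c * (U * (m1 ^ 2 + m2 ^ 2) * t - W * (s * m2 + t * m1)) := ⟨_, mul_div_cancel₀ _ hΔ⟩
    refine ⟨X, Y, mul_left_cancel₀ hΔ ?_, mul_left_cancel₀ hΔ ?_⟩
    · linear_combination (U * m1 - W) * hX - V * m2 * hY
    · linear_combination U * m2 * hX + (V * m1 - W) * hY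

end Pool.Agent.PonceletEuler
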