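import Pool.Agent.P.MP_d21a88_gt.Defs

namespace Pool.Agent.PonceletEuler

/-- The complex number `X/a + i Y/b`, where `X`, `Y` are the coordinates of the vector `(p, q)`
along the axes of `E`: the affine map that turns `E` into the unit circle. -/
noncomputable def Ellipse.nz (E : Ellipse) (p q : ℝ) : ℂ :=
  ⟨(p * E.u 0 + q * E.u 1) / E.a, (q * E.u 0 - p * E.u 1) / E.b⟩

/-- The centre of `C` in the picture where `E` is the unit circle. -/
noncomputable def ctr (E C : Ellipse) : ℂ := E.nz (C.c 0 - E.c 0) (C.c 1 - E.c 1)

/-- The product of the two foci of `C` in the picture where `E` is the unit circle: the square of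
the centre minus the squares of two conjugate semi-diameters. -/
noncomputable def focProd (E C : Ellipse) : ℂ :=
  ctr E C ^ 2 - E.nz (C.a * C.u 0) (C.a * C.u 1) ^ 2 - E.nz (-(C.b * C.u 1)) (C.b * C.u 0) ^ 2

end Pool.Agent.PonceletEuler
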