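import Pool.Agent.P.MP_d21a88_gt.Fam
import Pool.Agent.P.MP_d21a88_gt.Alg2
import Pool.Agent.P.MP_d21a88_gt.Defs2

namespace Pool.Agent.PonceletEuler

open EuclideanGeometry

/-- The equation of `F` in the normalised frame of `E`. -/
structure Norm (E F : Ellipse) (s t H d1 d2 : ℝ) : Prop where
  K0 : 0 < H ^ 2 - d1 ^ 2 - d2 ^ 2
  H0 : 0 < H - d1
  eq : ∀ x, (H ^ 2 - d1 ^ 2 - d2 ^ 2) / 2 * F.form x
    = (H - d1) * (E.X x / E.a - s / 2) ^ 2 - 2 * d2 * (E.X x / E.a - s / 2) * (E.Y x / E.b - t / 2)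
      + (H + d1) * (E.Y x / E.b - t / 2) ^ 2

theorem exists_norm (E F : Ellipse) : ∃ H d1 d2 : ℝ,
    Norm E F (2 * (ctr E F).re) (2 * (ctr E F).im) H d1 d2 ∧
      (focProd E F).re = ((2 * (ctr E F).re) ^ 2 - (2 * (ctr E F).im) ^ 2) / 4 - d1 ∧
      (focProd E F).im = (2 * (ctr E F).re) * (2 * (ctr E F).im) / 2 - d2 := by
  have ha := E.ha
  have hb := E.hb
  have hA := F.ha
  have hB := F.hb
  have hu := E.hu2
  have hv := F.hu2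
  obtain ⟨α, hα⟩ : ∃ α, α = E.nz (F.a * F.u 0) (F.a * F.u 1) := ⟨_, rfl⟩
  obtain ⟨β, hβ⟩ : ∃ β, β = E.nz (-(F.b * F.u 1)) (F.b * F.u 0) := ⟨_, rfl⟩
  have a1 : α.re = F.a * (F.u 0 * E.u 0 + F.u 1 * E.u 1) / E.a := by rw [hα, Ellipse.nz]; ring
  have a2 : α.im = F.a * (F.u 1 * E.u 0 - F.u 0 * E.u 1) / E.b := by rw [hα, Ellipse.nz]; ring
  have b1 : β.re = -(F.b * (F.u 1 * E.u 0 - F.u 0 * E.u 1)) / E.a := by rw [hβ, Ellipse.nz]; ring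
  have b2 : β.im = F.b * (F.u 0 * E.u 0 + F.u 1 * E.u 1) / E.b := by rw [hβ, Ellipse.nz]; ring
  have hD : α.re * β.im - α.im * β.re = F.a * F.b / (E.a * E.b) := by
    rw [a1, a2, b1, b2]
    field_simp
    linear_combination (F.u 0 ^ 2 + F.u 1 ^ 2) * hu + hv
  have hD0 : 0 < α.re * β.im - α.im * β.re := by rw [hD]; positivity
  refine ⟨α.re ^ 2 + α.im ^ 2 + β.re ^ 2 + β.im ^ 2, α.re ^ 2 - α.im ^ 2 + β.re ^ 2 - β.im ^ 2,
    2 * α.re * α.im + 2 * β.re * β.im, ⟨?_, ?_, fun x => ?_⟩, ?_, ?_⟩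
  · have := pow_pos hD0 2
    nlinarith
  · by_contra h
    have h1 : α.im = 0 := by nlinarith [sq_nonneg α.im, sq_nonneg β.im]
    have h2 : β.im = 0 := by nlinarith [sq_nonneg α.im, sq_nonneg β.im]
    rw [h1, h2] at hD0
    simp at hD0
  · have e1 : (α.re * β.im - α.im * β.re) * (F.X x / F.a)
        = β.im * (E.X x / E.a - 2 * (ctr E F).re / 2)
          - β.re * (E.Y x / E.b - 2 * (ctr E F).im / 2) := by
      rw [hD, b1, b2]
      simp only [ctr, Ellipse.nz, Ellipse.X, Ellipse.Y]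
      field_simp
      linear_combination (-((x 0 - F.c 0) * F.u 0 + (x 1 - F.c 1) * F.u 1)) * hu
    have e2 : (α.re * β.im - α.im * β.re) * (F.Y x / F.b)
        = α.re * (E.Y x / E.b - 2 * (ctr E F).im / 2)
          - α.im * (E.X x / E.a - 2 * (ctr E F).re / 2) := by
      rw [hD, a1, a2]
      simp only [ctr, Ellipse.nz, Ellipse.X, Ellipse.Y]
      field_simp
      linear_combination (-((x 1 - F.c 1) * F.u 0 - (x 0 - F.c 0) * F.u 1)) * hu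
    rw [F.form_eq]
    generalize E.X x / E.a - 2 * (ctr E F).re / 2 = ξ at *
    generalize E.Y x / E.b - 2 * (ctr E F).im / 2 = η at *
    linear_combination
      2 * ((α.re * β.im - α.im * β.re) * (F.X x / F.a) + (β.im * ξ - β.re * η)) * e1
      + 2 * ((α.re * β.im - α.im * β.re) * (F.Y x / F.b) + (α.re * η - α.im * ξ)) * e2
  · rw [focProd, ← hα, ← hβ]
    simp only [pow_two, Complex.sub_re, Complex.mul_re]
    ring
  · rw [focProd, ← hα, ← hβ]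
    simp only [pow_two, Complex.sub_im, Complex.mul_im]
    ring

variable {E F : Ellipse} {s t H d1 d2 : ℝ}

theorem Norm.pos (h : Norm E F s t H d1 d2) {p q : ℝ} (hpq : 0 < p ^ 2 + q ^ 2) :
    0 < (H - d1) * p ^ 2 - 2 * d2 * p * q + (H + d1) * q ^ 2 := by
  have hK0 := h.K0
  have hH := h.H0
  by_cases hy : q = 0
  · rw [hy] at hpq ⊢
    have := mul_pos hH (by linarith : 0 < p ^ 2)
    linarith
  · have e : (H - d1) * ((H - d1) * p ^ 2 - 2 * d2 * p * q + (H + d1) * q ^ 2)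
        = ((H - d1) * p - d2 * q) ^ 2 + (H ^ 2 - d1 ^ 2 - d2 ^ 2) * q ^ 2 := by ring
    have : 0 < (H - d1) * ((H - d1) * p ^ 2 - 2 * d2 * p * q + (H + d1) * q ^ 2) := by
      rw [e]; positivity
    exact (pos_iff_pos_of_mul_pos this).1 hH

theorem Norm.inside (h : Norm E F s t H d1 d2) (hin : ∀ x, F.form x ≤ 1 → E.form x < 1)
    (x y : ℝ) (hxy : (H - d1) * (x - s / 2) ^ 2 - 2 * d2 * (x - s / 2) * (y - t / 2)
      + (H + d1) * (y - t / 2) ^ 2 ≤ (H ^ 2 - d1 ^ 2 - d2 ^ 2) / 2) : x ^ 2 + y ^ 2 < 1 := by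
  have e := h.eq (E.pt (E.a * x) (E.b * y))
  have e2 := hin (E.pt (E.a * x) (E.b * y))
  rw [E.form_eq] at e2
  rw [E.X_pt, E.Y_pt, mul_div_cancel_left₀ _ E.ha.ne', mul_div_cancel_left₀ _ E.hb.ne'] at e e2
  apply e2
  have hK := h.K0
  rw [← e] at hxy
  by_contra hn
  push Not at hn
  nlinarith

/-- A tangent side satisfies the tangency identity. -/
theorem Norm.tan (h : Norm E F s t H d1 d2) {A B : Pl} (hT : F.TangentSide A B) {x1 y1 x2 y2 : ℝ}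
    (hA1 : E.X A / E.a = x1) (hA2 : E.Y A / E.b = y1)
    (hB1 : E.X B / E.a = x2) (hB2 : E.Y B / E.b = y2)
    (hpos : 0 < (x2 - x1) ^ 2 + (y2 - y1) ^ 2) :
    (H - d1) * (x2 - x1) ^ 2 - 2 * d2 * (x2 - x1) * (y2 - y1) + (H + d1) * (y2 - y1) ^ 2
      = 2 * ((x1 - s / 2) * (y2 - y1) - (y1 - t / 2) * (x2 - x1)) ^ 2 := by
  have hX : ∀ τ : ℝ, E.X (AffineMap.lineMap A B τ) / E.a = x1 + τ * (x2 - x1) := by
    intro τ; rw [E.X_line, ← hA1, ← hB1]; ring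
  have hY : ∀ τ : ℝ, E.Y (AffineMap.lineMap A B τ) / E.b = y1 + τ * (y2 - y1) := by
    intro τ; rw [E.Y_line, ← hA2, ← hB2]; ring
  have hN0 := h.pos hpos
  have hK0 := h.K0
  obtain ⟨N, hN⟩ : ∃ N, N = (H - d1) * (x2 - x1) ^ 2 - 2 * d2 * (x2 - x1) * (y2 - y1)
    + (H + d1) * (y2 - y1) ^ 2 := ⟨_, rfl⟩
  obtain ⟨L, hL⟩ : ∃ L, L = (H - d1) * (x2 - x1) * (x1 - s / 2)
    - d2 * ((x2 - x1) * (y1 - t / 2) + (y2 - y1) * (x1 - s / 2))
    + (H + d1) * (y2 - y1) * (y1 - t / 2) := ⟨_, rfl⟩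
  obtain ⟨C, hC⟩ : ∃ C, C = 2 * ((x1 - s / 2) * (y2 - y1) - (y1 - t / 2) * (x2 - x1)) ^ 2 :=
    ⟨_, rfl⟩
  obtain ⟨K, hK⟩ : ∃ K, K = (H ^ 2 - d1 ^ 2 - d2 ^ 2) / 2 := ⟨_, rfl⟩
  have key : ∀ τ : ℝ, N * K * (F.form (AffineMap.lineMap A B τ) - 1)
      = (N * τ + L) ^ 2 - K * (N - C) := by
    intro τ
    have e := h.eq (AffineMap.lineMap A B τ)
    rw [hX, hY] at e
    rw [hL, hN, hC, hK]
    linear_combination ((H - d1) * (x2 - x1) ^ 2 - 2 * d2 * (x2 - x1) * (y2 - y1)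
      + (H + d1) * (y2 - y1) ^ 2) * e
  rw [← hN] at hN0
  rw [← hN, ← hC]
  have hK1 : 0 < K := by linarith
  obtain ⟨τ, -, -, h1, h2⟩ := hT
  obtain ⟨σ, hσ⟩ : ∃ σ, N * σ = -2 * L - N * τ := ⟨_, mul_div_cancel₀ _ hN0.ne'⟩
  have k1 := key τ
  have k2 := key σ
  rw [h1, sub_self, mul_zero] at k1
  have h3 : F.form (AffineMap.lineMap A B σ) = 1 := by
    apply sub_eq_zero.1
    apply mul_left_cancel₀ (mul_pos hN0 hK1).ne'
    rw [k2, hσ]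
    linear_combination -k1
  rw [h2 σ h3] at hσ
  have h4 : N * τ + L = 0 := by linarith
  rw [h4] at k1
  have : K * (N - C) = 0 := by linarith
  exact sub_eq_zero.1 ((mul_eq_zero.1 this).resolve_left hK1.ne')

theorem chord_of_ne (E : Ellipse) {A B : Pl} (h : A ≠ B) :
    0 < (E.X B / E.a - E.X A / E.a) ^ 2 + (E.Y B / E.b - E.Y A / E.b) ^ 2 := by
  by_contra hn
  have h1 : E.X B / E.a - E.X A / E.a = 0 := by
    nlinarith [sq_nonneg (E.X B / E.a - E.X A / E.a), sq_nonneg (E.Y B / E.b - E.Y A / E.b)]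
  have h2 : E.Y B / E.b - E.Y A / E.b = 0 := by
    nlinarith [sq_nonneg (E.X B / E.a - E.X A / E.a), sq_nonneg (E.Y B / E.b - E.Y A / E.b)]
  rw [sub_eq_zero, div_left_inj' E.ha.ne'] at h1
  rw [sub_eq_zero, div_left_inj' E.hb.ne'] at h2
  have e := E.dist_sq A B
  rw [h1, h2] at e
  exact h (dist_eq_zero.1 (pow_eq_zero_iff two_ne_zero |>.1 (by rw [e]; ring)))

/-- The power of a point with respect to the Euler circle with parameter `l`. -/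
noncomputable def pw (E : Ellipse) (s t m1 m2 l1 l2 : ℝ) (P : Pl) : ℝ :=
  E.X P ^ 2 + E.Y P ^ 2
    - E.X P / E.a * ((3 * E.a ^ 2 + E.b ^ 2) * (s + (l1 * m1 + l2 * m2))
      - (E.a ^ 2 - E.b ^ 2) * l1) / 4
    - E.Y P / E.b * ((E.a ^ 2 + 3 * E.b ^ 2) * (t + (l2 * m1 - l1 * m2))
      - (E.a ^ 2 - E.b ^ 2) * l2) / 4
    + (E.a ^ 2 + E.b ^ 2) * (s ^ 2 + t ^ 2 + m1 ^ 2 + m2 ^ 2 - 1
      + 2 * (s * (l1 * m1 + l2 * m2) + t * (l2 * m1 - l1 * m2))) / 8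

theorem power_pw (T : Affine.Triangle ℝ Pl) (E : Ellipse) (x1 y1 x2 y2 x3 y3 s t m1 m2 l1 l2 : ℝ)
    (hp0 : E.X (T.points 0) = E.a * x1) (hq0 : E.Y (T.points 0) = E.b * y1)
    (hp1 : E.X (T.points 1) = E.a * x2) (hq1 : E.Y (T.points 1) = E.b * y2)
    (hp2 : E.X (T.points 2) = E.a * x3) (hq2 : E.Y (T.points 2) = E.b * y3)
    (h1 : y1 ^ 2 + x1 ^ 2 = 1) (h2 : y2 ^ 2 + x2 ^ 2 = 1) (h3 : y3 ^ 2 + x3 ^ 2 = 1)
    (hdet : (x2 - x1) * (y3 - y1) - (x3 - x1) * (y2 - y1) ≠ 0)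
    (hl1 : l1 = (x1 * x2 - y1 * y2) * x3 - (x1 * y2 + y1 * x2) * y3)
    (hl2 : l2 = (x1 * x2 - y1 * y2) * y3 + (x1 * y2 + y1 * x2) * x3) (hl : l1 ^ 2 + l2 ^ 2 = 1)
    (hx : x1 + x2 + x3 = s + (l1 * m1 + l2 * m2)) (hy : y1 + y2 + y3 = t + (l2 * m1 - l1 * m2))
    (P : Pl) : T.ninePointCircle.power P = pw E s t m1 m2 l1 l2 P := by
  have ha := E.ha
  have hb := E.hb
  have hdet' : (E.a * x2 - E.a * x1) * (E.b * y3 - E.b * y1)
      - (E.a * x3 - E.a * x1) * (E.b * y2 - E.b * y1) ≠ 0 := by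
    intro h
    apply hdet
    apply mul_left_cancel₀ (mul_pos ha hb).ne'
    linear_combination h
  obtain ⟨n1, hn1⟩ : ∃ n1, E.a * n1 = (E.a ^ 2 * (x1 + x2 + x3)
    - (E.a ^ 2 - E.b ^ 2) * (x1 + x2 + x3 + l1) / 4) / 2 := ⟨_, mul_div_cancel₀ _ ha.ne'⟩
  obtain ⟨n2, hn2⟩ : ∃ n2, E.b * n2 = (E.b ^ 2 * (y1 + y2 + y3)
    + (E.a ^ 2 - E.b ^ 2) * (y1 + y2 + y3 - l2) / 4) / 2 := ⟨_, mul_div_cancel₀ _ hb.ne'⟩
  rw [power_eq T E (E.a * x1) (E.b * y1) (E.a * x2) (E.b * y2) (E.a * x3) (E.b * y3) n1 n2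
    ((E.a ^ 2 + E.b ^ 2) * ((x1 + x2 + x3) ^ 2 + (y1 + y2 + y3) ^ 2 - 1) / 8)
    hp0 hq0 hp1 hq1 hp2 hq2 hdet'
    (by linear_combination euler_id x2 y2 x3 y3 x1 y1 l1 l2 E.a E.b n1 n2 h2 h3 h1 (by linarith)
          (by linarith) (by linarith) (by linarith))
    (by linear_combination euler_id x1 y1 x3 y3 x2 y2 l1 l2 E.a E.b n1 n2 h1 h3 h2 (by linarith)
          (by linarith) (by linarith) (by linarith))
    (by linear_combination euler_id x1 y1 x2 y2 x3 y3 l1 l2 E.a E.b n1 n2 h1 h2 h3 hl1 hl2 hn1 hn2)]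
  rw [hx] at hn1
  rw [hy] at hn2
  rw [hx, hy, pw]
  have e1 : E.X P = E.X P / E.a * E.a := by field_simp
  have e2 : E.Y P = E.Y P / E.b * E.b := by field_simp
  linear_combination (-2 * n1) * e1 - 2 * n2 * e2 - 2 * (E.X P / E.a) * hn1
    - 2 * (E.Y P / E.b) * hn2 + (E.a ^ 2 + E.b ^ 2) * (m1 ^ 2 + m2 ^ 2) / 8 * hl

/-- Every Poncelet triangle has a parameter on the unit circle. -/
theorem Norm.param (h : Norm E F s t H d1 d2) {m1 m2 : ℝ} (hm1 : m1 = (s ^ 2 - t ^ 2) / 4 - d1)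
    (hm2 : m2 = s * t / 2 - d2) {T : Affine.Triangle ℝ Pl} (hT : Poncelet E F T) :
    H = (1 + m1 ^ 2 + m2 ^ 2) / 2 - (s ^ 2 + t ^ 2) / 4 ∧ ∃ l1 l2 : ℝ, l1 ^ 2 + l2 ^ 2 = 1 ∧
      ∀ P, T.ninePointCircle.power P = pw E s t m1 m2 l1 l2 P := by
  have hne : ∀ i j, i ≠ j → T.points i ≠ T.points j := fun i j e e' =>
    e (T.independent.injective e')
  have c12 := chord_of_ne E (hne 0 1 (by decide))
  have c13 := chord_of_ne E (hne 0 2 (by decide))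
  have c23 := chord_of_ne E (hne 1 2 (by decide))
  have t12 := h.tan (hT.2 0 1 (by decide)) rfl rfl rfl rfl c12
  have t13 := h.tan (hT.2 0 2 (by decide)) rfl rfl rfl rfl c13
  have t23 := h.tan (hT.2 1 2 (by decide)) rfl rfl rfl rfl c23
  have u1 := hT.1 0
  have u2 := hT.1 1
  have u3 := hT.1 2
  rw [E.form_eq, add_comm] at u1 u2 u3
  have hX : ∀ x, E.X x = E.a * (E.X x / E.a) := fun x => by have := E.ha; field_simp
  have hY : ∀ x, E.Y x = E.b * (E.Y x / E.b) := fun x => by have := E.hb; field_simp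
  have p0 := hX (T.points 0)
  have p1 := hX (T.points 1)
  have p2 := hX (T.points 2)
  have q0 := hY (T.points 0)
  have q1 := hY (T.points 1)
  have q2 := hY (T.points 2)
  generalize E.X (T.points 0) / E.a = x1 at *
  generalize E.X (T.points 1) / E.a = x2 at *
  generalize E.X (T.points 2) / E.a = x3 at *
  generalize E.Y (T.points 0) / E.b = y1 at *
  generalize E.Y (T.points 1) / E.b = y2 at *
  generalize E.Y (T.points 2) / E.b = y3 at *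
  have hdet := det_ne x1 y1 x2 y2 x3 y3 u1 u2 u3 c12 c13 c23
  obtain ⟨l1, hl1⟩ : ∃ l, l = (x1 * x2 - y1 * y2) * x3 - (x1 * y2 + y1 * x2) * y3 := ⟨_, rfl⟩
  obtain ⟨l2, hl2⟩ : ∃ l, l = (x1 * x2 - y1 * y2) * y3 + (x1 * y2 + y1 * x2) * x3 := ⟨_, rfl⟩
  have hl : l1 ^ 2 + l2 ^ 2 = 1 := by
    rw [hl1, hl2]
    linear_combination (y2 ^ 2 + x2 ^ 2) * (y3 ^ 2 + x3 ^ 2) * u1 + (y3 ^ 2 + x3 ^ 2) * u2 + u3
  obtain ⟨k1, hk1⟩ : ∃ k, k = l1 * (x1 + x2 + x3 - s) + l2 * (y1 + y2 + y3 - t) := ⟨_, rfl⟩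
  obtain ⟨k2, hk2⟩ : ∃ k, k = l2 * (x1 + x2 + x3 - s) - l1 * (y1 + y2 + y3 - t) := ⟨_, rfl⟩
  have hs : s = x1 + x2 + x3 - (l1 * k1 + l2 * k2) := by
    rw [hk1, hk2]; linear_combination (x1 + x2 + x3 - s) * hl
  have ht : t = y1 + y2 + y3 - (l2 * k1 - l1 * k2) := by
    rw [hk1, hk2]; linear_combination (y1 + y2 + y3 - t) * hl
  have s12 := tan_id x1 y1 x2 y2 x3 y3 k1 k2 l1 l2 s t _ _ _ u1 u2 u3 hl1 hl2 hs ht rfl rfl rfl
  have s13 := tan_id x1 y1 x3 y3 x2 y2 k1 k2 l1 l2 s t _ _ _ u1 u3 u2 (by linarith) (by linarith)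
    (by linarith) (by linarith) rfl rfl rfl
  have s23 := tan_id x2 y2 x3 y3 x1 y1 k1 k2 l1 l2 s t _ _ _ u2 u3 u1 (by linarith) (by linarith)
    (by linarith) (by linarith) rfl rfl rfl
  obtain ⟨z1, z2, z3⟩ := form_zero
    ((H - d1) - (((1 + k1 ^ 2 + k2 ^ 2) / 2 - (s ^ 2 + t ^ 2) / 4) - ((s ^ 2 - t ^ 2) / 4 - k1)))
    (d2 - (s * t / 2 - k2))
    ((H + d1) - (((1 + k1 ^ 2 + k2 ^ 2) / 2 - (s ^ 2 + t ^ 2) / 4) + ((s ^ 2 - t ^ 2) / 4 - k1)))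
    (x2 - x1) (y2 - y1) (x3 - x1) (y3 - y1) hdet (by linear_combination t12 - s12)
    (by linear_combination t13 - s13) (by linear_combination t23 - s23)
  have e1 : m1 = k1 := by linarith
  have e2 : m2 = k2 := by linarith
  subst e1 e2
  refine ⟨by linarith, l1, l2, hl, ?_⟩
  exact power_pw T E x1 y1 x2 y2 x3 y3 s t _ _ l1 l2 p0 q0 p1 q1 p2 q2 u1 u2 u3 hdet hl1 hl2 hl
    (by linarith) (by linarith)

end Pool.Agent.PonceletEuler
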