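import Mathlib

namespace Pool.Agent.PonceletEuler

/-- The Euclidean plane. -/
abbrev Pl := EuclideanSpace ℝ (Fin 2)

/-- An ellipse: centre `c`, unit vector `u` along its first axis, semi-axis `a` along `u` and
semi-axis `b` along the perpendicular direction. -/
structure Ellipse where
  c : Pl
  u : Pl
  hu : ‖u‖ = 1
  a : ℝ
  b : ℝ
  ha : 0 < a
  hb : 0 < b

/-- `(X/a)^2 + (Y/b)^2`, where `X`, `Y` are the coordinates of `x - c` along `u` and along `u`
turned by a right angle.  The ellipse is the curve `form = 1`, its inside is `form < 1`. -/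
noncomputable def Ellipse.form (E : Ellipse) (x : Pl) : ℝ :=
  (((x 0 - E.c 0) * E.u 0 + (x 1 - E.c 1) * E.u 1) / E.a) ^ 2
    + (((x 1 - E.c 1) * E.u 0 - (x 0 - E.c 0) * E.u 1) / E.b) ^ 2

/-- Neither ellipse is a circle, and their first axes are neither parallel nor perpendicular:
no axis of `C` is parallel to an axis of `E`. -/
def NonAligned (E C : Ellipse) : Prop :=
  E.a ≠ E.b ∧ C.a ≠ C.b ∧ E.u 0 * C.u 1 - E.u 1 * C.u 0 ≠ 0 ∧ E.u 0 * C.u 0 + E.u 1 * C.u 1 ≠ 0

/-- The line `AB` meets the ellipse `C` in exactly one point, which lies strictly between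
`A` and `B`. -/
def Ellipse.TangentSide (C : Ellipse) (A B : Pl) : Prop :=
  ∃ t : ℝ, 0 < t ∧ t < 1 ∧ C.form (AffineMap.lineMap A B t) = 1 ∧
    ∀ s : ℝ, C.form (AffineMap.lineMap A B s) = 1 → s = t

/-- The triangle `T` has its vertices on `E` and its sides tangent to `C`. -/
def Poncelet (E C : Ellipse) (T : Affine.Triangle ℝ Pl) : Prop :=
  (∀ i, E.form (T.points i) = 1) ∧ ∀ i j, i ≠ j → C.TangentSide (T.points i) (T.points j)

end Pool.Agent.PonceletEuler
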