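import Pool.Agent.P.MP_d21a88_gt.Geo

namespace Pool.Agent.PonceletEuler

open EuclideanGeometry

theorem tangent_of (E F : Ellipse) (s t H d1 d2 : ℝ) (hK0 : 0 < H ^ 2 - d1 ^ 2 - d2 ^ 2)
    (hH : 0 < H - d1)
    (hF : ∀ x, (H ^ 2 - d1 ^ 2 - d2 ^ 2) / 2 * F.form x
      = (H - d1) * (E.X x / E.a - s / 2) ^ 2 - 2 * d2 * (E.X x / E.a - s / 2) * (E.Y x / E.b - t / 2)
        + (H + d1) * (E.Y x / E.b - t / 2) ^ 2)
    (hin : ∀ x, F.form x ≤ 1 → E.form x < 1) (A B : Pl) (x1 y1 x2 y2 : ℝ)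
    (hA1 : E.X A = E.a * x1) (hA2 : E.Y A = E.b * y1)
    (hB1 : E.X B = E.a * x2) (hB2 : E.Y B = E.b * y2)
    (h1 : y1 ^ 2 + x1 ^ 2 = 1) (h2 : y2 ^ 2 + x2 ^ 2 = 1)
    (hpos : 0 < (x2 - x1) ^ 2 + (y2 - y1) ^ 2)
    (htan : (H - d1) * (x2 - x1) ^ 2 - 2 * d2 * (x2 - x1) * (y2 - y1) + (H + d1) * (y2 - y1) ^ 2
      = 2 * ((x1 - s / 2) * (y2 - y1) - (y1 - t / 2) * (x2 - x1)) ^ 2) :
    F.TangentSide A B := by
  have ha := E.ha
  have hb := E.hb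
  have hX : ∀ τ : ℝ, E.X (AffineMap.lineMap A B τ) / E.a = x1 + τ * (x2 - x1) := by
    intro τ; rw [E.X_line, hA1, hB1]; field_simp
  have hY : ∀ τ : ℝ, E.Y (AffineMap.lineMap A B τ) / E.b = y1 + τ * (y2 - y1) := by
    intro τ; rw [E.Y_line, hA2, hB2]; field_simp
  obtain ⟨N, hN⟩ : ∃ N, N = (H - d1) * (x2 - x1) ^ 2 - 2 * d2 * (x2 - x1) * (y2 - y1)
    + (H + d1) * (y2 - y1) ^ 2 := ⟨_, rfl⟩
  obtain ⟨L, hL⟩ : ∃ L, L = (H - d1) * (x2 - x1) * (x1 - s / 2)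
    - d2 * ((x2 - x1) * (y1 - t / 2) + (y2 - y1) * (x1 - s / 2))
    + (H + d1) * (y2 - y1) * (y1 - t / 2) := ⟨_, rfl⟩
  have hN0 : 0 < N := by
    have e : (H - d1) * N = ((H - d1) * (x2 - x1) - d2 * (y2 - y1)) ^ 2
        + (H ^ 2 - d1 ^ 2 - d2 ^ 2) * (y2 - y1) ^ 2 := by rw [hN]; ring
    by_cases hy : y2 - y1 = 0
    · rw [hy] at hpos hN
      have : 0 < (x2 - x1) ^ 2 := by linarith
      have h' := mul_pos hH this
      linarith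
    · have : 0 < (H - d1) * N := by rw [e]; positivity
      exact (pos_iff_pos_of_mul_pos this).1 hH
  have key : ∀ τ : ℝ, N * ((H ^ 2 - d1 ^ 2 - d2 ^ 2) / 2) * (F.form (AffineMap.lineMap A B τ) - 1)
      = (N * τ + L) ^ 2 := by
    intro τ
    have e := hF (AffineMap.lineMap A B τ)
    rw [hX, hY] at e
    rw [hL, hN]
    linear_combination ((H - d1) * (x2 - x1) ^ 2 - 2 * d2 * (x2 - x1) * (y2 - y1)
      + (H + d1) * (y2 - y1) ^ 2) * e - (H ^ 2 - d1 ^ 2 - d2 ^ 2) / 2 * htan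
  have hc : N * ((H ^ 2 - d1 ^ 2 - d2 ^ 2) / 2) ≠ 0 := by positivity
  have h0 : F.form (AffineMap.lineMap A B (-L / N)) = 1 := by
    have e := key (-L / N)
    have e2 : N * (-L / N) + L = 0 := by field_simp; ring
    rw [e2] at e
    have := (mul_eq_zero.1 (e.trans (by norm_num))).resolve_left hc
    linarith
  have hi := hin _ h0.le
  rw [E.form_eq, hX, hY] at hi
  generalize hτ : -L / N = τ at h0 hi
  have hq : τ * (τ - 1) * ((x2 - x1) ^ 2 + (y2 - y1) ^ 2) < 0 := by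
    have : (x1 + τ * (x2 - x1)) ^ 2 + (y1 + τ * (y2 - y1)) ^ 2
        = 1 + τ * (τ - 1) * ((x2 - x1) ^ 2 + (y2 - y1) ^ 2) := by
      linear_combination (1 - τ) * h1 + τ * h2
    linarith
  have hq2 : τ * (τ - 1) < 0 := by
    by_contra hn
    push Not at hn
    exact absurd (mul_nonneg hn hpos.le) (not_le.2 hq)
  have hτ01 : 0 < τ ∧ τ < 1 := by
    rcases mul_neg_iff.1 hq2 with h | h
    · exact ⟨h.1, by linarith [h.2]⟩
    · linarith [h.1, h.2]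
  refine ⟨τ, hτ01.1, hτ01.2, h0, ?_⟩
  intro σ hσ
  have e := key σ
  rw [hσ, sub_self, mul_zero] at e
  have e2 : N * σ + L = 0 := pow_eq_zero_iff two_ne_zero |>.1 e.symm
  rw [← hτ]
  field_simp
  linarith

/-- A triangle of the family for every parameter on the unit circle, with its Euler circle. -/
theorem exists_tri (E F : Ellipse) (s t m1 m2 H d1 d2 : ℝ)
    (hH : H = (1 + m1 ^ 2 + m2 ^ 2) / 2 - (s ^ 2 + t ^ 2) / 4)
    (hd1 : d1 = (s ^ 2 - t ^ 2) / 4 - m1) (hd2 : d2 = s * t / 2 - m2)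
    (hK0 : 0 < H ^ 2 - d1 ^ 2 - d2 ^ 2) (hH0 : 0 < H - d1)
    (hF : ∀ x, (H ^ 2 - d1 ^ 2 - d2 ^ 2) / 2 * F.form x
      = (H - d1) * (E.X x / E.a - s / 2) ^ 2 - 2 * d2 * (E.X x / E.a - s / 2) * (E.Y x / E.b - t / 2)
        + (H + d1) * (E.Y x / E.b - t / 2) ^ 2)
    (hin : ∀ x, F.form x ≤ 1 → E.form x < 1) (l1 l2 p q n1 n2 : ℝ) (hl : l1 ^ 2 + l2 ^ 2 = 1)
    (hp : p = s + (l1 * m1 + l2 * m2)) (hq : q = t + (l2 * m1 - l1 * m2))
    (hσ : p ^ 2 + q ^ 2 < 1)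
    (hn1 : E.a * n1 = (E.a ^ 2 * p - (E.a ^ 2 - E.b ^ 2) * (p + l1) / 4) / 2)
    (hn2 : E.b * n2 = (E.b ^ 2 * q + (E.a ^ 2 - E.b ^ 2) * (q - l2) / 4) / 2) :
    ∃ T : Affine.Triangle ℝ Pl, Poncelet E F T ∧ ∀ P, T.ninePointCircle.power P
      = E.X P ^ 2 + E.Y P ^ 2 - 2 * (E.X P * n1 + E.Y P * n2)
        + (E.a ^ 2 + E.b ^ 2) * (p ^ 2 + q ^ 2 - 1) / 8 := by
  have ha := E.ha
  have hb := E.hb
  obtain ⟨x1, y1, x2, y2, x3, y3, h1, h2, h3, hx, hy, hl1, hl2⟩ :=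
    exists_three_real p q l1 l2 hσ hl
  have c12 := chord_pos x1 y1 x2 y2 x3 y3 h1 h3 (by rw [hx, hy]; exact hσ)
  have c13 := chord_pos x1 y1 x3 y3 x2 y2 h1 h2 (by rw [← hx, ← hy] at hσ; linarith)
  have c23 := chord_pos x2 y2 x3 y3 x1 y1 h2 h1 (by rw [← hx, ← hy] at hσ; linarith)
  have hdet := det_ne x1 y1 x2 y2 x3 y3 h1 h2 h3 c12 c13 c23
  have hdet' : (E.a * x2 - E.a * x1) * (E.b * y3 - E.b * y1)
      - (E.a * x3 - E.a * x1) * (E.b * y2 - E.b * y1) ≠ 0 := by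
    intro h
    apply hdet
    apply mul_left_cancel₀ (mul_pos ha hb).ne'
    linear_combination h
  have hind : AffineIndependent ℝ
      ![E.pt (E.a * x1) (E.b * y1), E.pt (E.a * x2) (E.b * y2), E.pt (E.a * x3) (E.b * y3)] := by
    apply indep_of_det E
    simpa only [E.X_pt, E.Y_pt] using hdet'
  have hform : ∀ x y : ℝ, y ^ 2 + x ^ 2 = 1 → E.form (E.pt (E.a * x) (E.b * y)) = 1 := by
    intro x y h
    rw [E.form_eq, E.X_pt, E.Y_pt, mul_div_cancel_left₀ _ ha.ne', mul_div_cancel_left₀ _ hb.ne']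
    linarith
  have tg : ∀ x1 y1 x2 y2 x3 y3 : ℝ, y1 ^ 2 + x1 ^ 2 = 1 → y2 ^ 2 + x2 ^ 2 = 1 →
      y3 ^ 2 + x3 ^ 2 = 1 → x1 + x2 + x3 = p → y1 + y2 + y3 = q →
      l1 = (x1 * x2 - y1 * y2) * x3 - (x1 * y2 + y1 * x2) * y3 →
      l2 = (x1 * x2 - y1 * y2) * y3 + (x1 * y2 + y1 * x2) * x3 →
      F.TangentSide (E.pt (E.a * x1) (E.b * y1)) (E.pt (E.a * x2) (E.b * y2)) := by
    intro x1 y1 x2 y2 x3 y3 h1 h2 h3 hx hy hl1 hl2
    exact tangent_of E F s t H d1 d2 hK0 hH0 hF hin _ _ x1 y1 x2 y2 (E.X_pt _ _) (E.Y_pt _ _)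
      (E.X_pt _ _) (E.Y_pt _ _) h1 h2
      (chord_pos x1 y1 x2 y2 x3 y3 h1 h3 (by rw [hx, hy]; exact hσ))
      (tan_id x1 y1 x2 y2 x3 y3 m1 m2 l1 l2 s t H d1 d2 h1 h2 h3 hl1 hl2 (by linarith)
        (by linarith) hH hd1 hd2)
  refine ⟨⟨_, hind⟩, ⟨?_, ?_⟩, ?_⟩
  · intro i
    fin_cases i
    · exact hform _ _ h1
    · exact hform _ _ h2
    · exact hform _ _ h3
  · intro i j hij
    fin_cases i <;> fin_cases j
    · exact absurd rfl hij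
    · exact tg x1 y1 x2 y2 x3 y3 h1 h2 h3 hx hy hl1 hl2
    · exact tg x1 y1 x3 y3 x2 y2 h1 h3 h2 (by linarith) (by linarith) (by linarith) (by linarith)
    · exact tg x2 y2 x1 y1 x3 y3 h2 h1 h3 (by linarith) (by linarith) (by linarith) (by linarith)
    · exact absurd rfl hij
    · exact tg x2 y2 x3 y3 x1 y1 h2 h3 h1 (by linarith) (by linarith) (by linarith) (by linarith)
    · exact tg x3 y3 x1 y1 x2 y2 h3 h1 h2 (by linarith) (by linarith) (by linarith) (by linarith)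
    · exact tg x3 y3 x2 y2 x1 y1 h3 h2 h1 (by linarith) (by linarith) (by linarith) (by linarith)
    · exact absurd rfl hij
  · intro P
    subst hx hy
    apply power_eq _ E (E.a * x1) (E.b * y1) (E.a * x2) (E.b * y2) (E.a * x3) (E.b * y3) n1 n2 _
      (E.X_pt _ _) (E.Y_pt _ _) (E.X_pt _ _) (E.Y_pt _ _) (E.X_pt _ _) (E.Y_pt _ _) hdet'
    · linear_combination euler_id x2 y2 x3 y3 x1 y1 l1 l2 E.a E.b n1 n2 h2 h3 h1 (by linarith)
        (by linarith) (by linarith) (by linarith)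
    · linear_combination euler_id x1 y1 x3 y3 x2 y2 l1 l2 E.a E.b n1 n2 h1 h3 h2 (by linarith)
        (by linarith) (by linarith) (by linarith)
    · linear_combination euler_id x1 y1 x2 y2 x3 y3 l1 l2 E.a E.b n1 n2 h1 h2 h3 hl1 hl2 hn1 hn2

end Pool.Agent.PonceletEuler
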