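import Pool.Agent.P.MP_d21a88_gt.Defs
import Pool.Agent.P.MP_d21a88_gt.Alg

namespace Pool.Agent.PonceletEuler

open EuclideanGeometry

/-- First coordinate in the frame of `E`. -/
noncomputable def Ellipse.X (E : Ellipse) (x : Pl) : ℝ :=
  (x 0 - E.c 0) * E.u 0 + (x 1 - E.c 1) * E.u 1

/-- Second coordinate in the frame of `E`. -/
noncomputable def Ellipse.Y (E : Ellipse) (x : Pl) : ℝ :=
  (x 1 - E.c 1) * E.u 0 - (x 0 - E.c 0) * E.u 1

/-- The point with given coordinates in the frame of `E`. -/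
noncomputable def Ellipse.pt (E : Ellipse) (p q : ℝ) : Pl :=
  !₂[E.c 0 + p * E.u 0 - q * E.u 1, E.c 1 + p * E.u 1 + q * E.u 0]

theorem Ellipse.form_eq (E : Ellipse) (x : Pl) :
    E.form x = (E.X x / E.a) ^ 2 + (E.Y x / E.b) ^ 2 := rfl

theorem Ellipse.hu2 (E : Ellipse) : E.u 0 ^ 2 + E.u 1 ^ 2 = 1 := by
  have h := EuclideanSpace.real_norm_sq_eq E.u
  rw [E.hu, Fin.sum_univ_two] at h
  linarith

theorem Ellipse.X_pt (E : Ellipse) (p q : ℝ) : E.X (E.pt p q) = p := by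
  simp only [Ellipse.X, Ellipse.pt, PiLp.toLp_apply, Matrix.cons_val_zero, Matrix.cons_val_one]
  linear_combination p * E.hu2

theorem Ellipse.Y_pt (E : Ellipse) (p q : ℝ) : E.Y (E.pt p q) = q := by
  simp only [Ellipse.Y, Ellipse.pt, PiLp.toLp_apply, Matrix.cons_val_zero, Matrix.cons_val_one]
  linear_combination q * E.hu2

theorem Ellipse.X_line (E : Ellipse) (A B : Pl) (t : ℝ) :
    E.X (AffineMap.lineMap A B t) = E.X A + t * (E.X B - E.X A) := by
  simp [Ellipse.X, AffineMap.lineMap_apply]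
  ring

theorem Ellipse.Y_line (E : Ellipse) (A B : Pl) (t : ℝ) :
    E.Y (AffineMap.lineMap A B t) = E.Y A + t * (E.Y B - E.Y A) := by
  simp [Ellipse.Y, AffineMap.lineMap_apply]
  ring

theorem Ellipse.dist_sq (E : Ellipse) (A B : Pl) :
    dist A B ^ 2 = (E.X A - E.X B) ^ 2 + (E.Y A - E.Y B) ^ 2 := by
  rw [EuclideanSpace.dist_eq, Real.sq_sqrt (by positivity), Fin.sum_univ_two, Real.dist_eq,
    Real.dist_eq, sq_abs, sq_abs]
  simp only [Ellipse.X, Ellipse.Y]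
  linear_combination (-((A 0 - B 0) ^ 2 + (A 1 - B 1) ^ 2)) * E.hu2

/-- Principal axes of a positive definite binary form with nonzero mixed term. -/
theorem principal_axes (A B C : ℝ) (hA : 0 < A) (hdet : B ^ 2 < A * C) (hB : B ≠ 0) :
    ∃ cs sn a b : ℝ, cs ^ 2 + sn ^ 2 = 1 ∧ cs ≠ 0 ∧ sn ≠ 0 ∧ 0 < a ∧ 0 < b ∧ a ≠ b ∧
      ∀ p q : ℝ, ((p * cs + q * sn) / a) ^ 2 + ((q * cs - p * sn) / b) ^ 2
        = A * p ^ 2 + 2 * B * p * q + C * q ^ 2 := by
  have hC : 0 < C := by nlinarith [sq_nonneg B]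
  have hB2 : 0 < B ^ 2 := by positivity
  obtain ⟨D, hD0, hD⟩ : ∃ D : ℝ, 0 < D ∧ D ^ 2 = ((A - C) / 2) ^ 2 + B ^ 2 :=
    ⟨√(((A - C) / 2) ^ 2 + B ^ 2), Real.sqrt_pos.2 (by positivity), Real.sq_sqrt (by positivity)⟩
  have h1 : D < (A + C) / 2 := by nlinarith
  have h2 : 0 < D + (A - C) / 2 := by nlinarith
  obtain ⟨cs, hcs0, hcs⟩ : ∃ cs : ℝ, 0 < cs ∧ cs ^ 2 = (D + (A - C) / 2) / (2 * D) :=
    ⟨√((D + (A - C) / 2) / (2 * D)), Real.sqrt_pos.2 (by positivity), Real.sq_sqrt (by positivity)⟩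
  obtain ⟨a, ha0, ha⟩ : ∃ a : ℝ, 0 < a ∧ a ^ 2 = (A + C) / 2 + D :=
    ⟨√((A + C) / 2 + D), Real.sqrt_pos.2 (by positivity), Real.sq_sqrt (by positivity)⟩
  obtain ⟨b, hb0, hb⟩ : ∃ b : ℝ, 0 < b ∧ b ^ 2 = (A + C) / 2 - D :=
    ⟨√((A + C) / 2 - D), Real.sqrt_pos.2 (by linarith), Real.sq_sqrt (by linarith)⟩
  have hcs' : 2 * D * cs ^ 2 = D + (A - C) / 2 := by rw [hcs]; field_simp
  obtain ⟨sn, hsn⟩ : ∃ sn : ℝ, 2 * D * cs * sn = B := ⟨B / (2 * D * cs), by field_simp⟩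
  have hsn' : 2 * D * sn ^ 2 = D - (A - C) / 2 := by
    apply mul_left_cancel₀ h2.ne'
    linear_combination (-(2 * D * sn ^ 2)) * hcs' + (2 * D * cs * sn + B) * hsn - hD
  have hone : cs ^ 2 + sn ^ 2 = 1 := by
    apply mul_left_cancel₀ (by positivity : (2 * D) ≠ 0)
    linear_combination hcs' + hsn'
  refine ⟨cs, sn, a⁻¹, b⁻¹, hone, hcs0.ne', ?_, by positivity, by positivity, ?_, ?_⟩
  · rintro rfl
    exact hB (by linear_combination -hsn)
  · intro h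
    have : a = b := inv_injective h
    subst this
    linarith
  · intro p q
    rw [div_inv_eq_mul, div_inv_eq_mul, mul_pow, mul_pow, ha, hb]
    linear_combination ((A + C) / 2 * (p ^ 2 + q ^ 2)) * hone + (p ^ 2 - q ^ 2) / 2 * hcs'
      - (p ^ 2 - q ^ 2) / 2 * hsn' + 2 * p * q * hsn

/-- An ellipse with a prescribed equation in the frame of `E`. -/
theorem exists_inner (E : Ellipse) (hE : E.a ≠ E.b) (X0 Y0 A B C : ℝ) (hA : 0 < A)
    (hdet : B ^ 2 < A * C) (hB : B ≠ 0) :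
    ∃ F : Ellipse, F.c = E.pt X0 Y0 ∧ NonAligned E F ∧ ∀ x, F.form x =
      A * (E.X x - X0) ^ 2 + 2 * B * (E.X x - X0) * (E.Y x - Y0) + C * (E.Y x - Y0) ^ 2 := by
  obtain ⟨cs, sn, a, b, h1, hcs, hsn, ha, hb, hab, hf⟩ := principal_axes A B C hA hdet hB
  have hu := E.hu2
  have hn : ‖(!₂[cs * E.u 0 - sn * E.u 1, cs * E.u 1 + sn * E.u 0] : Pl)‖ = 1 := by
    have h := EuclideanSpace.real_norm_sq_eq
      (!₂[cs * E.u 0 - sn * E.u 1, cs * E.u 1 + sn * E.u 0] : Pl)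
    rw [Fin.sum_univ_two] at h
    simp only [Matrix.cons_val_zero, Matrix.cons_val_one] at h
    have h2 : (cs * E.u 0 - sn * E.u 1) ^ 2 + (cs * E.u 1 + sn * E.u 0) ^ 2 = 1 := by
      linear_combination (cs ^ 2 + sn ^ 2) * hu + h1
    rw [h2] at h
    exact (pow_eq_one_iff_of_nonneg (norm_nonneg _) two_ne_zero).1 h
  refine ⟨⟨E.pt X0 Y0, _, hn, a, b, ha, hb⟩, rfl, ⟨hE, hab, ?_, ?_⟩, ?_⟩
  · simp only [Matrix.cons_val_zero, Matrix.cons_val_one]
    intro h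
    exact hsn (by linear_combination h - sn * hu)
  · simp only [Matrix.cons_val_zero, Matrix.cons_val_one]
    intro h
    exact hcs (by linear_combination h - cs * hu)
  · intro x
    rw [← hf]
    simp only [Ellipse.form, Ellipse.X, Ellipse.Y, Ellipse.pt, PiLp.toLp_apply,
      Matrix.cons_val_zero, Matrix.cons_val_one]
    congr 3
    · linear_combination (-(X0 * cs + Y0 * sn)) * hu
    · linear_combination (-(Y0 * cs - X0 * sn)) * hu

theorem indep_of_det (E : Ellipse) (A B C : Pl)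
    (h : (E.X B - E.X A) * (E.Y C - E.Y A) - (E.X C - E.X A) * (E.Y B - E.Y A) ≠ 0) :
    AffineIndependent ℝ ![A, B, C] := by
  rw [affineIndependent_iff_not_collinear_set, collinear_iff_of_mem (p₀ := A) (by simp)]
  rintro ⟨v, hv⟩
  obtain ⟨r, hr⟩ := hv B (by simp)
  obtain ⟨s, hs⟩ := hv C (by simp)
  apply h
  rw [hr, hs]
  simp [Ellipse.X, Ellipse.Y]
  ring

theorem mid_mem (T : Affine.Triangle ℝ Pl) (E : Ellipse) (i : Fin 3) :
    ∃ M ∈ T.ninePointCircle,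
      2 * E.X M = E.X (T.points 0) + E.X (T.points 1) + E.X (T.points 2) - E.X (T.points i) ∧
      2 * E.Y M = E.Y (T.points 0) + E.Y (T.points 1) + E.Y (T.points 2) - E.Y (T.points i) := by
  refine ⟨_, T.faceOppositeCentroid_mem_ninePointCircle i, ?_⟩
  have h := T.smul_faceOppositeCentroid_vsub_point_eq_sum_vsub i
  rw [Fin.sum_univ_three] at h
  have h0 := congrArg (fun v : Pl => v 0) h
  have h1 := congrArg (fun v : Pl => v 1) h
  simp at h0 h1
  simp only [Ellipse.X, Ellipse.Y]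
  constructor
  · linear_combination E.u 0 * h0 + E.u 1 * h1
  · linear_combination E.u 0 * h1 - E.u 1 * h0

/-- The power with respect to the Euler circle, from a circle equation through the midpoints. -/
theorem power_eq (T : Affine.Triangle ℝ Pl) (E : Ellipse) (p0 q0 p1 q1 p2 q2 n1 n2 k : ℝ)
    (hp0 : E.X (T.points 0) = p0) (hq0 : E.Y (T.points 0) = q0)
    (hp1 : E.X (T.points 1) = p1) (hq1 : E.Y (T.points 1) = q1)
    (hp2 : E.X (T.points 2) = p2) (hq2 : E.Y (T.points 2) = q2)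
    (hdet : (p1 - p0) * (q2 - q0) - (p2 - p0) * (q1 - q0) ≠ 0)
    (e0 : ((p1 + p2) / 2) ^ 2 + ((q1 + q2) / 2) ^ 2
      - 2 * ((p1 + p2) / 2 * n1 + (q1 + q2) / 2 * n2) + k = 0)
    (e1 : ((p0 + p2) / 2) ^ 2 + ((q0 + q2) / 2) ^ 2
      - 2 * ((p0 + p2) / 2 * n1 + (q0 + q2) / 2 * n2) + k = 0)
    (e2 : ((p0 + p1) / 2) ^ 2 + ((q0 + q1) / 2) ^ 2
      - 2 * ((p0 + p1) / 2 * n1 + (q0 + q1) / 2 * n2) + k = 0) (P : Pl) :
    T.ninePointCircle.power P
      = E.X P ^ 2 + E.Y P ^ 2 - 2 * (E.X P * n1 + E.Y P * n2) + k := by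
  obtain ⟨M0, hM0, hx0, hy0⟩ := mid_mem T E 0
  obtain ⟨M1, hM1, hx1, hy1⟩ := mid_mem T E 1
  obtain ⟨M2, hM2, hx2, hy2⟩ := mid_mem T E 2
  rw [hp0, hp1, hp2] at hx0 hx1 hx2
  rw [hq0, hq1, hq2] at hy0 hy1 hy2
  rw [mem_sphere] at hM0 hM1 hM2
  have d0 := E.dist_sq M0 T.ninePointCircle.center
  have d1 := E.dist_sq M1 T.ninePointCircle.center
  have d2 := E.dist_sq M2 T.ninePointCircle.center
  rw [hM0] at d0
  rw [hM1] at d1
  rw [hM2] at d2
  rw [Sphere.power, E.dist_sq]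
  generalize E.X T.ninePointCircle.center = c1 at *
  generalize E.Y T.ninePointCircle.center = c2 at *
  generalize T.ninePointCircle.radius ^ 2 = R at *
  have a0 : E.X M0 = (p1 + p2) / 2 := by linarith
  have a1 : E.X M1 = (p0 + p2) / 2 := by linarith
  have a2 : E.X M2 = (p0 + p1) / 2 := by linarith
  have b0 : E.Y M0 = (q1 + q2) / 2 := by linarith
  have b1 : E.Y M1 = (q0 + q2) / 2 := by linarith
  have b2 : E.Y M2 = (q0 + q1) / 2 := by linarith
  rw [a0, b0] at d0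
  rw [a1, b1] at d1
  rw [a2, b2] at d2
  have f1 : (p1 - p0) * (c1 - n1) + (q1 - q0) * (c2 - n2) = 0 := by
    linear_combination d0 - d1 + e0 - e1
  have f2 : (p2 - p0) * (c1 - n1) + (q2 - q0) * (c2 - n2) = 0 := by
    linear_combination d0 - d2 + e0 - e2
  have g1 : c1 = n1 := by
    apply sub_eq_zero.1
    apply mul_left_cancel₀ hdet
    linear_combination (q2 - q0) * f1 - (q1 - q0) * f2
  have g2 : c2 = n2 := by
    apply sub_eq_zero.1
    apply mul_left_cancel₀ hdet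
    linear_combination (p1 - p0) * f2 - (p2 - p0) * f1
  subst g1 g2
  linear_combination -d0 - e0

end Pool.Agent.PonceletEuler
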