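import Pool.Agent.P.MP_d21a88_gt.Cls

namespace Pool.Agent.PonceletEuler

open EuclideanGeometry

variable {E F : Ellipse} {s t H d1 d2 : ℝ}

/-- A tangent line of the outer ellipse does not touch the inner one. -/
theorem Norm.not_tan (h : Norm E F s t H d1 d2) (hin : ∀ x, F.form x ≤ 1 → E.form x < 1)
    {x y : ℝ} (h1 : y ^ 2 + x ^ 2 = 1)
    (ht : (H - d1) * (-y) ^ 2 - 2 * d2 * (-y) * x + (H + d1) * x ^ 2
      = 2 * ((x - s / 2) * x - (y - t / 2) * (-y)) ^ 2) : False := by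
  have hN0 := h.pos (p := -y) (q := x) (by nlinarith)
  obtain ⟨N, hN⟩ : ∃ N, N = (H - d1) * (-y) ^ 2 - 2 * d2 * (-y) * x + (H + d1) * x ^ 2 := ⟨_, rfl⟩
  obtain ⟨L, hL⟩ : ∃ L, L = (H - d1) * (-y) * (x - s / 2)
    - d2 * ((-y) * (y - t / 2) + x * (x - s / 2)) + (H + d1) * x * (y - t / 2) := ⟨_, rfl⟩
  rw [← hN] at hN0
  obtain ⟨τ, hτ⟩ : ∃ τ, N * τ = -L := ⟨_, mul_div_cancel₀ _ hN0.ne'⟩
  have key : N * ((H - d1) * (x - τ * y - s / 2) ^ 2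
      - 2 * d2 * (x - τ * y - s / 2) * (y + τ * x - t / 2) + (H + d1) * (y + τ * x - t / 2) ^ 2)
      = (N * τ + L) ^ 2
        + (H ^ 2 - d1 ^ 2 - d2 ^ 2) * ((x - s / 2) * x - (y - t / 2) * (-y)) ^ 2 := by
    rw [hN, hL]
    ring
  have := h.inside hin (x - τ * y) (y + τ * x) (le_of_eq (mul_left_cancel₀ hN0.ne' (by
    rw [key, hτ, hN, ht]
    ring)))
  nlinarith [sq_nonneg τ]

/-- Every parameter on the unit circle belongs to a Poncelet triangle. -/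
theorem Norm.exists_tri (h : Norm E F s t H d1 d2) (hin : ∀ x, F.form x ≤ 1 → E.form x < 1)
    {m1 m2 : ℝ} (hm1 : m1 = (s ^ 2 - t ^ 2) / 4 - d1) (hm2 : m2 = s * t / 2 - d2)
    (hH : H = (1 + m1 ^ 2 + m2 ^ 2) / 2 - (s ^ 2 + t ^ 2) / 4) {l1 l2 : ℝ}
    (hl : l1 ^ 2 + l2 ^ 2 = 1) : ∃ T : Affine.Triangle ℝ Pl, Poncelet E F T ∧
      ∀ P, T.ninePointCircle.power P = pw E s t m1 m2 l1 l2 P := by
  have ha := E.ha
  have hb := E.hb
  obtain ⟨e1, e2, he1, he2⟩ := exists_sqrt d1 d2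
  have hq : (H - d1) * e1 ^ 2 - 2 * d2 * e1 * e2 + (H + d1) * e2 ^ 2
      ≤ (H ^ 2 - d1 ^ 2 - d2 ^ 2) / 2 := by
    rw [← he1, ← he2]
    nlinarith [sq_nonneg (H - (e1 ^ 2 + e2 ^ 2))]
  obtain ⟨x1, y1, x2, y2, x3, y3, h1, h2, h3, hx, hy, hl1, hl2⟩ :=
    exists_three_real' s t e1 e2 m1 m2 l1 l2
      (h.inside hin _ _ (by rw [add_sub_cancel_left, add_sub_cancel_left]; exact hq))
      (h.inside hin _ _ (by rw [sub_sub_cancel_left, sub_sub_cancel_left]; linarith))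
      (by rw [he1, hm1]) (by rw [he2, hm2]) hl
  have cp : ∀ x1 y1 x2 y2 x3 y3 : ℝ, y1 ^ 2 + x1 ^ 2 = 1 → y3 ^ 2 + x3 ^ 2 = 1 →
      x1 + x2 + x3 = s + (l1 * m1 + l2 * m2) → y1 + y2 + y3 = t + (l2 * m1 - l1 * m2) →
      l1 = (x1 * x2 - y1 * y2) * x3 - (x1 * y2 + y1 * x2) * y3 →
      l2 = (x1 * x2 - y1 * y2) * y3 + (x1 * y2 + y1 * x2) * x3 →
      0 < (x2 - x1) ^ 2 + (y2 - y1) ^ 2 := by
    intro x1 y1 x2 y2 x3 y3 h1 h3 hx hy hl1 hl2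
    by_contra hn
    obtain ⟨e1, e2⟩ := (add_eq_zero_iff_of_nonneg (sq_nonneg _) (sq_nonneg _)).1
      (le_antisymm (not_lt.1 hn) (add_nonneg (sq_nonneg _) (sq_nonneg _)))
    rw [sq_eq_zero_iff] at e1 e2
    rw [sub_eq_zero] at e1 e2
    subst e1 e2
    exact h.not_tan hin h1 (tan_id2 x2 y2 x3 y3 m1 m2 l1 l2 s t H d1 d2 h1 h3 hl1 hl2
      (by linarith) (by linarith) hH (by linarith) (by linarith))
  have hdet := det_ne x1 y1 x2 y2 x3 y3 h1 h2 h3 (cp x1 y1 x2 y2 x3 y3 h1 h3 hx hy hl1 hl2)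
    (cp x1 y1 x3 y3 x2 y2 h1 h2 (by linarith) (by linarith) (by linarith) (by linarith))
    (cp x2 y2 x3 y3 x1 y1 h2 h1 (by linarith) (by linarith) (by linarith) (by linarith))
  have hind : AffineIndependent ℝ
      ![E.pt (E.a * x1) (E.b * y1), E.pt (E.a * x2) (E.b * y2), E.pt (E.a * x3) (E.b * y3)] := by
    apply indep_of_det E
    simp only [E.X_pt, E.Y_pt]
    intro h
    apply hdet
    apply mul_left_cancel₀ (mul_pos ha hb).ne'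
    linear_combination h
  have hform : ∀ x y : ℝ, y ^ 2 + x ^ 2 = 1 → E.form (E.pt (E.a * x) (E.b * y)) = 1 := by
    intro x y h
    rw [E.form_eq, E.X_pt, E.Y_pt, mul_div_cancel_left₀ _ ha.ne', mul_div_cancel_left₀ _ hb.ne']
    linarith
  have tg : ∀ x1 y1 x2 y2 x3 y3 : ℝ, y1 ^ 2 + x1 ^ 2 = 1 → y2 ^ 2 + x2 ^ 2 = 1 →
      y3 ^ 2 + x3 ^ 2 = 1 → x1 + x2 + x3 = s + (l1 * m1 + l2 * m2) →
      y1 + y2 + y3 = t + (l2 * m1 - l1 * m2) →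
      l1 = (x1 * x2 - y1 * y2) * x3 - (x1 * y2 + y1 * x2) * y3 →
      l2 = (x1 * x2 - y1 * y2) * y3 + (x1 * y2 + y1 * x2) * x3 →
      F.TangentSide (E.pt (E.a * x1) (E.b * y1)) (E.pt (E.a * x2) (E.b * y2)) := by
    intro x1 y1 x2 y2 x3 y3 h1 h2 h3 hx hy hl1 hl2
    exact tangent_of E F s t H d1 d2 h.K0 h.H0 h.eq hin _ _ x1 y1 x2 y2 (E.X_pt _ _) (E.Y_pt _ _)
      (E.X_pt _ _) (E.Y_pt _ _) h1 h2 (cp x1 y1 x2 y2 x3 y3 h1 h3 hx hy hl1 hl2)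
      (tan_id x1 y1 x2 y2 x3 y3 m1 m2 l1 l2 s t H d1 d2 h1 h2 h3 hl1 hl2 (by linarith)
        (by linarith) hH (by linarith) (by linarith))
  refine ⟨⟨_, hind⟩, ⟨?_, ?_⟩, power_pw _ E x1 y1 x2 y2 x3 y3 s t m1 m2 l1 l2 (E.X_pt _ _)
    (E.Y_pt _ _) (E.X_pt _ _) (E.Y_pt _ _) (E.X_pt _ _) (E.Y_pt _ _) h1 h2 h3 hdet hl1 hl2 hl hx hy⟩
  · intro i
    fin_cases i
    · exact hform _ _ h1
    · exact hform _ _ h2
    · exact hform _ _ h3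
  · intro i j hij
    fin_cases i <;> fin_cases j
    · exact absurd rfl hij
    · exact tg x1 y1 x2 y2 x3 y3 h1 h2 h3 hx hy hl1 hl2
    · exact tg x1 y1 x3 y3 x2 y2 h1 h3 h2 (by linarith) (by linarith) (by linarith) (by linarith)
    · exact tg x2 y2 x1 y1 x3 y3 h2 h1 h3 (by linarith) (by linarith) (by linarith) (by linarith)
    · exact absurd rfl hij
    · exact tg x2 y2 x3 y3 x1 y1 h2 h3 h1 (by linarith) (by linarith) (by linarith) (by linarith)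
    · exact tg x3 y3 x1 y1 x2 y2 h3 h1 h2 (by linarith) (by linarith) (by linarith) (by linarith)
    · exact tg x3 y3 x2 y2 x1 y1 h3 h2 h1 (by linarith) (by linarith) (by linarith) (by linarith)
    · exact absurd rfl hij

theorem pw_lin (E : Ellipse) (s t m1 m2 l1 l2 : ℝ) (P : Pl) : pw E s t m1 m2 l1 l2 P =
    pw E s t m1 m2 0 0 P
      - l1 * (((3 * E.a ^ 2 + E.b ^ 2) * m1 - (E.a ^ 2 - E.b ^ 2)) * (E.X P / E.a)
        - (E.a ^ 2 + 3 * E.b ^ 2) * m2 * (E.Y P / E.b)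
        - (E.a ^ 2 + E.b ^ 2) * (s * m1 - t * m2)) / 4
      - l2 * ((3 * E.a ^ 2 + E.b ^ 2) * m2 * (E.X P / E.a)
        + ((E.a ^ 2 + 3 * E.b ^ 2) * m1 - (E.a ^ 2 - E.b ^ 2)) * (E.Y P / E.b)
        - (E.a ^ 2 + E.b ^ 2) * (s * m2 + t * m1)) / 4 := by
  simp only [pw]
  ring

theorem euler_iff (E C : Ellipse) (hin : ∀ x, C.form x ≤ 1 → E.form x < 1)
    (hex : ∃ T, Poncelet E C T) (U V W : ℝ) (hU : U = 3 * E.a ^ 2 + E.b ^ 2)
    (hV : V = E.a ^ 2 + 3 * E.b ^ 2) (hW : W = E.a ^ 2 - E.b ^ 2) (z m : ℂ) (hz : z = ctr E C)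
    (hm : m = focProd E C) :
    (∃ (P : Pl) (κ : ℝ), ∀ T, Poncelet E C T → T.ninePointCircle.power P = κ) ↔
      (U * V * ‖m‖ ^ 2 - W * (U + V) * m.re + W ^ 2 ≠ 0 ∨
        (V * ‖m‖ ^ 2 * z.re = W * (z * m).re ∧ U * ‖m‖ ^ 2 * z.im = W * (z * m).im)) := by
  have ha := E.ha
  have hb := E.hb
  obtain ⟨H, d1, d2, h, m1, m2⟩ := exists_norm E C
  rw [← hz] at h m1 m2
  rw [← hm] at m1 m2
  obtain ⟨T₀, hT₀⟩ := hex
  have hH := (h.param m1 m2 hT₀).1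
  have hn : ‖m‖ ^ 2 = m.re ^ 2 + m.im ^ 2 := by
    rw [Complex.sq_norm, Complex.normSq_apply]
    ring
  have key := solve_iff U V W (E.a ^ 2 + E.b ^ 2) (2 * z.re) (2 * z.im) m.re m.im
    (by rw [hU]; positivity) (by positivity) (by rw [hU, hV, hW]; ring)
  rw [hn, Complex.mul_re, Complex.mul_im]
  refine Iff.trans ?_ (key.trans (or_congr_right (and_congr ?_ ?_)))
  · subst hU hV hW
    constructor
    · rintro ⟨P, κ, hP⟩
      have hk : ∀ l1 l2 : ℝ, l1 ^ 2 + l2 ^ 2 = 1 →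
          pw E (2 * z.re) (2 * z.im) m.re m.im l1 l2 P = κ := fun l1 l2 hl => by
        obtain ⟨T, h1, h2⟩ := h.exists_tri hin m1 m2 hH hl
        rw [← h2, hP T h1]
      have k1 := hk 1 0 (by norm_num)
      have k2 := hk (-1) 0 (by norm_num)
      have k3 := hk 0 1 (by norm_num)
      have k4 := hk 0 (-1) (by norm_num)
      rw [pw_lin] at k1 k2 k3 k4
      exact ⟨E.X P / E.a, E.Y P / E.b, by linarith, by linarith⟩
    · rintro ⟨X, Y, h1, h2⟩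
      refine ⟨E.pt (E.a * X) (E.b * Y),
        pw E (2 * z.re) (2 * z.im) m.re m.im 0 0 (E.pt (E.a * X) (E.b * Y)), fun T hT => ?_⟩
      obtain ⟨l1, l2, -, hl⟩ := (h.param m1 m2 hT).2
      rw [hl, pw_lin, E.X_pt, E.Y_pt, mul_div_cancel_left₀ _ ha.ne', mul_div_cancel_left₀ _ hb.ne',
        h1, h2]
      ring
  · constructor <;> intro h <;> linarith
  · constructor <;> intro h <;> linarith

end Pool.Agent.PonceletEuler
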