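import Pool.Agent.P.MP_d21a88_gt.Fam

namespace Pool.Agent.PonceletEuler

open EuclideanGeometry

/-- The inner ellipse attached to a real parameter `m` with `|m| < 1`. -/
theorem inner_of (E : Ellipse) (hE : E.a ≠ E.b) (m s H : ℝ) (hm : |m| < 1)
    (hs : s = (1 - |m|) / 2) (hH : H = (1 + m ^ 2) / 2 - s ^ 2 / 2) :
    0 < H ^ 2 - (-m) ^ 2 - (s ^ 2 / 2) ^ 2 ∧ 0 < H - -m ∧
    ∃ F : Ellipse, F.c ≠ E.c ∧ NonAligned E F ∧ (∀ x, F.form x ≤ 1 → E.form x < 1) ∧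
      ∀ x, (H ^ 2 - (-m) ^ 2 - (s ^ 2 / 2) ^ 2) / 2 * F.form x
      = (H - -m) * (E.X x / E.a - s / 2) ^ 2
        - 2 * (s ^ 2 / 2) * (E.X x / E.a - s / 2) * (E.Y x / E.b - s / 2)
        + (H + -m) * (E.Y x / E.b - s / 2) ^ 2 := by
  have ha := E.ha
  have hb := E.hb
  have hμ0 := abs_nonneg m
  have hμ2 : |m| ^ 2 = m ^ 2 := sq_abs m
  have hμ3 := neg_abs_le m
  generalize |m| = μ at hm hs hμ0 hμ2 hμ3
  have hs0 : 0 < s := by linarith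
  obtain ⟨D, hD0, hD⟩ : ∃ D : ℝ, 0 ≤ D ∧ D ^ 2 = (-m) ^ 2 + (s ^ 2 / 2) ^ 2 :=
    ⟨√((-m) ^ 2 + (s ^ 2 / 2) ^ 2), Real.sqrt_nonneg _, Real.sq_sqrt (by positivity)⟩
  have hDle : D ≤ μ + s ^ 2 / 2 := by
    apply le_of_sq_le_sq _ (by positivity)
    have : 0 ≤ μ * s ^ 2 := by positivity
    nlinarith
  have hμ : μ = 1 - 2 * s := by linarith
  have hHs : H = μ + 3 * s ^ 2 / 2 := by rw [hH, ← hμ2, hμ]; ring
  have hs2 : 0 < s ^ 2 := by positivity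
  have hDH : D < H := by linarith
  have hK : 0 < H ^ 2 - (-m) ^ 2 - (s ^ 2 / 2) ^ 2 := by nlinarith
  have hH0 : 0 < H - -m := by linarith
  refine ⟨hK, hH0, ?_⟩
  obtain ⟨K, hKd⟩ : ∃ K, K = (H ^ 2 - (-m) ^ 2 - (s ^ 2 / 2) ^ 2) / 2 := ⟨_, rfl⟩
  have hK0 : 0 < K := by linarith
  obtain ⟨F, hc, hna, hF⟩ := exists_inner E hE (E.a * (s / 2)) (E.b * (s / 2))
    ((H - -m) / (K * E.a ^ 2)) (-(s ^ 2 / 2) / (K * E.a * E.b)) ((H + -m) / (K * E.b ^ 2))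
    (by positivity)
    (by
      have e : (H - -m) / (K * E.a ^ 2) * ((H + -m) / (K * E.b ^ 2))
          - (-(s ^ 2 / 2) / (K * E.a * E.b)) ^ 2
          = (H ^ 2 - (-m) ^ 2 - (s ^ 2 / 2) ^ 2) / (K * E.a * E.b) ^ 2 := by
        field_simp
        ring
      have : 0 < (H ^ 2 - (-m) ^ 2 - (s ^ 2 / 2) ^ 2) / (K * E.a * E.b) ^ 2 := by positivity
      linarith)
    (div_ne_zero (by linarith) (by positivity))
  have hF' : ∀ x, K * F.form x = (H - -m) * (E.X x / E.a - s / 2) ^ 2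
      - 2 * (s ^ 2 / 2) * (E.X x / E.a - s / 2) * (E.Y x / E.b - s / 2)
      + (H + -m) * (E.Y x / E.b - s / 2) ^ 2 := by
    intro x
    rw [hF]
    field_simp
    ring
  refine ⟨F, ?_, hna, ?_, by rw [← hKd]; exact hF'⟩
  · intro h
    have h1 : E.X F.c = E.a * (s / 2) := by rw [hc, E.X_pt]
    rw [h] at h1
    have h2 : E.X E.c = 0 := by simp [Ellipse.X]
    have : 0 < E.a * (s / 2) := by positivity
    linarith
  · intro x hx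
    have h1 := hF' x
    have h2 : K * F.form x ≤ K := by nlinarith
    rw [h1, hKd] at h2
    have h3 := form_bound H (-m) (s ^ 2 / 2) D _ _ hD0 hD hDH h2
    rw [E.form_eq]
    generalize E.X x / E.a = ξ at h3
    generalize E.Y x / E.b = η at h3
    have h4 : (ξ - s / 2) ^ 2 + (η - s / 2) ^ 2 ≤ (1 - s) ^ 2 := by nlinarith
    have hs1 : s ≤ 1 / 2 := by linarith
    have h5 : (ξ - s / 2) + (η - s / 2) ≤ 3 / 2 * (1 - s) := by
      apply le_of_sq_le_sq _ (by linarith)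
      nlinarith [sq_nonneg (ξ - η), sq_nonneg (1 - s)]
    nlinarith [mul_le_mul_of_nonneg_left h5 hs0.le, mul_pos hs0 (by linarith : 0 < 1 - s)]

theorem main (E : Ellipse) (hE : E.a ≠ E.b) :
    ∃ C : Ellipse, (∀ x, C.form x ≤ 1 → E.form x < 1) ∧ C.c ≠ E.c ∧ NonAligned E C ∧
      ∃ T₁ T₂ : Affine.Triangle ℝ Pl, Poncelet E C T₁ ∧ Poncelet E C T₂ ∧
        ∀ P : Pl, T₁.ninePointCircle.power P ≠ T₂.ninePointCircle.power P := by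
  have ha := E.ha
  have hb := E.hb
  obtain ⟨m, hm⟩ : ∃ m : ℝ, m * (3 * E.a ^ 2 + E.b ^ 2) = E.a ^ 2 - E.b ^ 2 :=
    ⟨(E.a ^ 2 - E.b ^ 2) / (3 * E.a ^ 2 + E.b ^ 2), by field_simp⟩
  have hpos : 0 < 3 * E.a ^ 2 + E.b ^ 2 := by positivity
  have hm1 : |m| < 1 := by
    rw [abs_lt]
    constructor <;> nlinarith [pow_pos ha 2, pow_pos hb 2]
  have hm0 : m ≠ 0 := by
    rintro rfl
    apply hE
    apply (pow_left_inj₀ ha.le hb.le two_ne_zero).1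
    linarith
  obtain ⟨s, hs⟩ : ∃ s : ℝ, s = (1 - |m|) / 2 := ⟨_, rfl⟩
  obtain ⟨H, hH⟩ : ∃ H : ℝ, H = (1 + m ^ 2) / 2 - s ^ 2 / 2 := ⟨_, rfl⟩
  obtain ⟨hK, hH0, F, hc, hna, hin, hF⟩ := inner_of E hE m s H hm1 hs hH
  have hs0 : 0 < s := by linarith
  have hμ0 := abs_nonneg m
  have hμ2 : |m| ^ 2 = m ^ 2 := sq_abs m
  have hμ3 := neg_abs_le m
  have hμ4 := le_abs_self m
  have hμ : |m| = 1 - 2 * s := by linarith
  rw [hμ] at hμ0 hμ2 hμ3 hμ4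
  obtain ⟨n1, hn1⟩ : ∃ n1 : ℝ, E.a * n1 = s * (3 * E.a ^ 2 + E.b ^ 2) / 8 :=
    ⟨s * (3 * E.a ^ 2 + E.b ^ 2) / 8 / E.a, by field_simp⟩
  obtain ⟨n2, hn2⟩ : ∃ n2 : ℝ, E.b * n2 = s * (E.a ^ 2 + 3 * E.b ^ 2) / 8 :=
    ⟨s * (E.a ^ 2 + 3 * E.b ^ 2) / 8 / E.b, by field_simp⟩
  obtain ⟨T₁, hT₁, p₁⟩ := exists_tri E F s s m 0 H (-m) (s ^ 2 / 2) (by rw [hH]; ring) (by ring)
    (by ring) hK hH0 hF hin 1 0 (s + m) s n1 n2 (by norm_num) (by ring) (by ring)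
    (by nlinarith [mul_le_mul_of_nonneg_left hμ4 hs0.le])
    (by linear_combination hn1 - hm / 8) (by linear_combination hn2)
  obtain ⟨T₂, hT₂, p₂⟩ := exists_tri E F s s m 0 H (-m) (s ^ 2 / 2) (by rw [hH]; ring) (by ring)
    (by ring) hK hH0 hF hin (-1) 0 (s - m) s n1 n2 (by norm_num) (by ring) (by ring)
    (by nlinarith [mul_le_mul_of_nonneg_left hμ3 hs0.le])
    (by linear_combination hn1 + hm / 8) (by linear_combination hn2)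
  refine ⟨F, hin, hc, hna, T₁, T₂, hT₁, hT₂, fun P h => ?_⟩
  rw [p₁, p₂] at h
  have h1 : (E.a ^ 2 + E.b ^ 2) * s * m = 0 := by linear_combination 2 * h
  exact (mul_ne_zero (by positivity) hm0) h1

end Pool.Agent.PonceletEuler
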